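import Mathlib
import Pool.Agent.helper72.SqI

/-!
The square-root law for every metric: basic definitions (project AM, MP_d52931_gt).
Everything is on top of helper72's files SqA .. SqI (trace triples `Tri`, moves `Lm`, `Rm`, lengths
`len`, growing triples `Gr`, length function `Lam`, counts `HS`, `H`, `Ht`, `LinSet`, node data `ND`).
-/

set_option autoImplicit false

namespace AM

open Pool.Agent.helper72.Sq Finset

/-- the additive character `e(t) = exp(2πit)` -/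
noncomputable def ee (t : ℝ) : ℂ := Complex.exp (((2 * Real.pi * t : ℝ) : ℂ) * Complex.I)

/-- the sawtooth `{t} - 1/2` -/
noncomputable def ps (t : ℝ) : ℝ := Int.fract t - 1 / 2

/-- distance to the nearest integer -/
noncomputable def nrm (t : ℝ) : ℝ := |t - round t|

/-- the sawtooth sum of a right-angled triangle with legs `r / l1`, `r / l2` -/
noncomputable def SS (l1 l2 r : ℝ) : ℝ :=
  ∑ q ∈ range (⌊r / l2⌋₊ + 1), ps (r / l1 - q * (l2 / l1))

/-- the Möbius function as a real number -/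
noncomputable def mu (n : ℕ) : ℝ := (ArithmeticFunction.moebius n : ℝ)

/-- a node of the Farey tree: basis `V = (v1, v2)`, `V' = (w1, w2)` of `ℤ²` together with the trace
triple of `(V, V', V + V')`. -/
structure Nd where
  v1 : ℕ
  v2 : ℕ
  w1 : ℕ
  w2 : ℕ
  t : Tri

/-- left child `(V, V + V')` -/
def Nd.L (x : Nd) : Nd := ⟨x.v1, x.v2, x.v1 + x.w1, x.v2 + x.w2, Lm x.t⟩
/-- right child `(V + V', V')` -/
def Nd.R (x : Nd) : Nd := ⟨x.v1 + x.w1, x.v2 + x.w2, x.w1, x.w2, Rm x.t⟩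
/-- size of `V` -/
def Nd.m1 (x : Nd) : ℕ := x.v1 + x.v2
/-- size of `V'` -/
def Nd.m2 (x : Nd) : ℕ := x.w1 + x.w2
/-- length of `V` -/
noncomputable def Nd.l1 (x : Nd) : ℝ := len x.t.1
/-- length of `V'` -/
noncomputable def Nd.l2 (x : Nd) : ℝ := len x.t.2.1
/-- length of `V + V'` -/
noncomputable def Nd.lz (x : Nd) : ℝ := len x.t.2.2
/-- the root of the tree of `P` -/
def rt (P : Tri) : Nd := ⟨1, 0, 0, 1, P⟩

/-- leaves at level `M` below `x` (with fuel `n`; the fuel is irrelevant as soon as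
`M ≤ m1 + m2 + n`). -/
def lvs (M : ℕ) : ℕ → Nd → List Nd
  | 0, x => [x]
  | n + 1, x => if M ≤ x.m1 + x.m2 then [x] else lvs M n x.L ++ lvs M n x.R

/-- sum of `f` over the leaves at level `M` below `x` -/
noncomputable def lsum (M n : ℕ) (x : Nd) (f : Nd → ℝ) : ℝ := ((lvs M n x).map f).sum

/-- admissible parameters -/
structure Par (c c' k t0 : ℝ) : Prop where
  c0 : 0 < c
  cc : c ≤ c'
  k0 : 0 ≤ k
  t2 : 2 < t0

/-- good nodes: node data of helper72 (`c m_i ≤ ltau`, `len ≤ c' m_i`, `Gr`, ...) and `det = 1` -/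
def GN (c c' k t0 : ℝ) (x : Nd) : Prop :=
  ND c c' k t0 x.m1 x.m2 x.t ∧ x.v1 * x.w2 = x.v2 * x.w1 + 1

/-- one-sided derivative of the length at `V` in the direction `V'` -/
noncomputable def E1 (Q : Tri) : ℝ :=
  2 * Real.log ((Q.2.2 - Q.2.1 * Real.exp (-(len Q.1 / 2))) /
    (Real.exp (len Q.1 / 2) - Real.exp (-(len Q.1 / 2))))

/-- one-sided derivative of the length at `V'` in the direction `V` -/
noncomputable def E2 (Q : Tri) : ℝ :=
  2 * Real.log ((Q.2.2 - Q.1 * Real.exp (-(len Q.2.1 / 2))) /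
    (Real.exp (len Q.2.1 / 2) - Real.exp (-(len Q.2.1 / 2))))

/-- coordinates of the vector `(d1, d2)` in the basis of the node: `D = al • V + be • V'` -/
def Nd.al (x : Nd) (d1 d2 : ℤ) : ℤ := d1 * x.w2 - d2 * x.w1
/-- second coordinate -/
def Nd.be (x : Nd) (d1 d2 : ℤ) : ℤ := x.v1 * d2 - x.v2 * d1

/-- the linear functional with values `l1`, `l2` at `V`, `V'` -/
noncomputable def Nd.La (x : Nd) (d1 d2 : ℤ) : ℝ := x.al d1 d2 * x.l1 + x.be d1 d2 * x.l2
/-- the right derivative at `V` -/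
noncomputable def Nd.I (x : Nd) (d1 d2 : ℤ) : ℝ := x.al d1 d2 * x.l1 + x.be d1 d2 * E1 x.t
/-- the left derivative at `V'` -/
noncomputable def Nd.S (x : Nd) (d1 d2 : ℤ) : ℝ := x.al d1 d2 * E2 x.t + x.be d1 d2 * x.l2

/-- resonant leaf: `l2 / l1` is exponentially close to `a / s` with `s ≤ j^4` -/
def Bad (κ : ℝ) (j : ℕ) (y : Nd) (a s : ℕ) : Prop :=
  1 ≤ a ∧ 1 ≤ s ∧ s ≤ j ^ 4 ∧ Nat.Coprime a s ∧ |(s : ℝ) * y.l2 - a * y.l1| ≤ Real.exp (-(κ * j))

/-- the sandwich property of the level `C0 * j` -/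
def SWp (P : Tri) (C0 : ℕ) : Prop :=
  1 ≤ C0 ∧ ∀ j : ℕ, 1 ≤ j → ∀ y ∈ lvs (C0 * j) (C0 * j) (rt P), ∀ r : ℝ, 0 ≤ r → r ≤ 2 ^ (5 * j) →
    HS y.t r ⊆ LinSet y.l1 y.l2 (r + 1 / 2 ^ (8 * j))

/-- quadratic coefficient at level `M` -/
noncomputable def alM (P : Tri) (M : ℕ) : ℝ := lsum M M (rt P) (fun y => 1 / (2 * y.l1 * y.l2))

/-- `α` is the limit of the quadratic coefficients, with a rate -/
def ALp (P : Tri) (C0 : ℕ) (α : ℝ) : Prop :=
  ∃ C : ℝ, 0 < C ∧ ∀ j : ℕ, 1 ≤ j → |alM P (C0 * j) - α| ≤ C / 2 ^ (4 * j)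

/-- the property to be proved for every growing triple -/
structure MB (P : Tri) : Prop where
  fin : ∀ R, (HS P R).Finite
  est : ∃ α : ℝ, (∃ K : ℝ, ∀ r : ℝ, 1 ≤ r → |Ht P r - α * r ^ 2| ≤ K * r) ∧
    ∀ B : ℝ, ∃ K : ℝ, ∀ R : ℝ, 1 ≤ R → ∀ D : ℕ, (D : ℝ) ≤ B * R →
      |∑ d ∈ Finset.Icc 1 D, mu d * (Ht P (R / d) - α * (R / d) ^ 2)| ≤ K * R

end AM
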