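import Mathlib
import Pool.Agent.helper68.AM.Base

/-!
Project AM (MP_d52931_gt, square-root law for EVERY metric): statements of the modules.
Notes with the proofs: team store, D52931_ALL_METRICS.md.
-/

set_option autoImplicit false

namespace AM

open Pool.Agent.helper72.Sq Finset

/-! ## Number theory -/

/-- KL (Kusmin–Landau): antitone increments in `[θ, 1 - θ]`. -/
def KL_stmt : Prop := ∀ (n : ℕ) (x : ℕ → ℝ) (θ : ℝ), 0 < θ → θ ≤ 1 / 2 →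
  (∀ k < n, θ ≤ x (k + 1) - x k) → (∀ k < n, x (k + 1) - x k ≤ 1 - θ) →
  (∀ k, k + 1 < n → x (k + 2) - x (k + 1) ≤ x (k + 1) - x k) →
  ‖∑ k ∈ range (n + 1), ee (x k)‖ ≤ 1 / θ

/-- EM: exponential sum with phase `α / m`. -/
def EM_stmt : Prop := ∀ (α : ℝ) (M1 M2 : ℕ), 0 < α → 1 ≤ M1 → M1 ≤ M2 → α ≤ (M1 : ℝ) ^ 2 / 2 →
  ‖∑ m ∈ Icc M1 M2, ee (α / m)‖ ≤ (M2 : ℝ) ^ 2 / α

/-- BL: bilinear sum, Cauchy–Schwarz over `m`. -/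
def BL_stmt : Prop := ∀ (D Y : ℝ) (P N1 N2 : ℕ) (T : Finset ℕ) (b : ℕ → ℝ),
  1 ≤ D → 1 ≤ P → 0 < Y → 8 * Y * P ≤ D ^ 2 → D ≤ (N1 : ℝ) + 1 → (N2 : ℝ) ≤ 2 * D →
  (∀ p ∈ T, P < p ∧ p ≤ 2 * P) → (∀ m, |b m| ≤ 1) →
  ‖∑ p ∈ T, ∑ m ∈ (range (N2 + 1)).filter (fun m => N1 < p * m ∧ p * m ≤ N2),
      ((b m : ℝ) : ℂ) * ee (Y / ((p * m : ℕ) : ℝ))‖ ^ 2 ≤
    4 * D ^ 2 / P + 16 * D ^ 3 * (1 + Real.log P) / Y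

/-- RAM: Ramaré's identity. -/
def RAM_stmt : Prop := ∀ (W : Finset ℕ) (N1 N2 : ℕ) (F : ℕ → ℂ),
  (∀ p ∈ W, p.Prime) → (∀ n, ‖F n‖ ≤ 1) →
  ‖(∑ n ∈ Ioc N1 N2, ((mu n : ℝ) : ℂ) * F n) +
      ∑ p ∈ W, ∑ m ∈ (range (N2 + 1)).filter (fun m => N1 < p * m ∧ p * m ≤ N2),
        ((mu m / ((W.filter (fun q => q ∣ m)).card + 1) : ℝ) : ℂ) * F (p * m)‖ ≤
    (((Ioc N1 N2).filter (fun n => ∀ p ∈ W, ¬ p ∣ n)).card : ℝ) + ∑ p ∈ W, (N2 : ℝ) / (p : ℝ) ^ 2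

/-- HR: an elementary inequality of Hall–Rankin type. -/
def HR_stmt : Prop := ∃ C : ℝ, 0 < C ∧ ∀ (W : Finset ℕ) (x : ℕ), 2 ≤ x →
  (((Icc 1 x).filter (fun n => ∀ p ∈ W, ¬ p ∣ n)).card : ℝ) * Real.log x ≤
    C * x * ∑ m ∈ (Icc 1 x).filter (fun n => ∀ p ∈ W, ¬ p ∣ n), 1 / (m : ℝ)

/-- primes in `(P0, Q0]` -/
def Wp (P0 Q0 : ℕ) : Finset ℕ := (Ioc P0 Q0).filter Nat.Prime

/-- RF: factor integers into a part with primes `≤ P0`, a part with primes in `(P0, Q0]` and the rest. -/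
def RF_stmt : Prop := ∀ (P0 Q0 x : ℕ), 1 ≤ P0 → 2 ≤ Q0 → 1 ≤ x →
  (∑ m ∈ (Icc 1 x).filter (fun n => ∀ p ∈ Wp P0 Q0, ¬ p ∣ n), 1 / (m : ℝ)) * Real.log Q0 ≤
    P0 * (1 + Real.log x + Real.log Q0)

/-- SV: the sieve bound. -/
def SV_stmt : Prop := ∃ C : ℝ, 0 < C ∧ ∀ (P0 Q0 x : ℕ), 1 ≤ P0 → 2 ≤ Q0 → Q0 ≤ x →
  (((Icc 1 x).filter (fun n => ∀ p ∈ Wp P0 Q0, ¬ p ∣ n)).card : ℝ) ≤
    C * x * P0 / Real.log Q0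

/-- MU: Möbius exponential sum with phase `Y / n`. -/
def MU_stmt : Prop := ∃ C : ℝ, 0 < C ∧ ∀ (j : ℕ), 1 ≤ j → ∀ (D Y : ℝ) (N1 N2 : ℕ),
  2 ^ (12 * j) ≤ D → 0 < Y → D ^ 2 * 2 ^ j ≤ Y ^ 2 → Y ≤ 2 ^ (3 * j) * D →
  D ≤ (N1 : ℝ) + 1 → (N2 : ℝ) ≤ 2 * D →
  ‖∑ n ∈ Ioc N1 N2, ((mu n : ℝ) : ℂ) * ee (Y / n)‖ ≤ C * D * (j : ℝ) ^ (-(1 / 4) : ℝ)

/-- FS: truncated Fourier series of the sawtooth. -/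
def FS_stmt : Prop := ∃ C : ℝ, 0 < C ∧ ∀ (H : ℕ) (t : ℝ), 1 ≤ H →
  |ps t + ∑ h ∈ Icc 1 H, Real.sin (2 * Real.pi * h * t) / (Real.pi * h)| ≤ C ∧
  |ps t + ∑ h ∈ Icc 1 H, Real.sin (2 * Real.pi * h * t) / (Real.pi * h)| * (H * nrm t) ≤ C

/-- NI: few `d` with `X / d - c` close to an integer. -/
def NI_stmt : Prop := ∀ (X D c δ : ℝ) (N1 N2 : ℕ), 1 ≤ D → D ≤ X → 0 ≤ δ → δ ≤ 1 / 2 →
  D ≤ (N1 : ℝ) + 1 → (N2 : ℝ) ≤ 2 * D →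
  (((Ioc N1 N2).filter (fun d : ℕ => nrm (X / d - c) ≤ δ)).card : ℝ) ≤ 20 * δ * D + X / D + 3

/-- MP: Möbius against the sawtooth. -/
def MP_stmt : Prop := ∃ C : ℝ, 0 < C ∧ ∃ j1 : ℕ, ∀ (j : ℕ), j1 ≤ j → ∀ (D X c : ℝ) (N1 N2 : ℕ),
  2 ^ (12 * j) ≤ D → 0 < X → D ^ 2 * 2 ^ j ≤ X ^ 2 → X ≤ 2 ^ (2 * j) * D →
  D ≤ (N1 : ℝ) + 1 → (N2 : ℝ) ≤ 2 * D →
  |∑ d ∈ Ioc N1 N2, mu d * ps (X / d - c)| ≤ C * D * (j : ℝ) ^ (-(1 / 5) : ℝ)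

/-! ## Sawtooth sums of triangles -/

/-- LM: `lin_main` of helper72 with the sawtooth sum kept. -/
def LM_stmt : Prop := ∀ (l1 l2 R : ℝ), 0 < l1 → 0 < l2 → 0 ≤ R →
  |((LinSet l1 l2 R).ncard : ℝ) - (R ^ 2 / (2 * l1 * l2) + R / (2 * l1) - R / (2 * l2)) +
    SS l1 l2 R| ≤ l2 / l1 + 1

/-- SB: one block of length `s`, slope close to `a / s`. -/
def SB_stmt : Prop := ∀ (s : ℕ) (a : ℤ) (θ y ε : ℝ), 1 ≤ s → IsCoprime a (s : ℤ) → 0 ≤ ε →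
  (s : ℝ) * |θ - a / s| ≤ ε →
  |(∑ i ∈ range s, ps (y - i * θ)) - ps (s * y)| ≤
    3 * s * ε + (open Classical in if nrm (s * y) ≤ s * ε then 1 else 0)

/-- S2: Möbius sum of the sawtooth sum of a resonant triangle. -/
def S2_stmt : Prop := ∀ (c Cl : ℝ), 0 < c → ∃ C : ℝ, 0 < C ∧ ∃ j1 : ℕ, ∀ (j : ℕ), j1 ≤ j →
  ∀ (l1 l2 R : ℝ) (a s N1 N2 : ℕ), c ≤ l1 → c ≤ l2 → l1 ≤ Cl * j → 1 ≤ s → s ≤ j ^ 4 →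
  Nat.Coprime a s → (s : ℝ) * |l2 / l1 - a / s| ≤ 1 / 2 ^ (j / 2) → 2 ^ (16 * j) ≤ R →
  R / 2 ^ (j + 1) ≤ (N1 : ℝ) + 1 → (N2 : ℝ) ≤ R / 2 ^ j →
  |∑ d ∈ Ioc N1 N2, mu d * SS l1 l2 (R / d)| ≤
    C * (R / (l2 * s) * (j : ℝ) ^ (-(1 / 5) : ℝ) + R / (j : ℝ) ^ 4)

/-! ## Geometry of the tree -/

/-- GE: properties of the one-sided derivatives. -/
def GE_stmt : Prop := ∀ Q : Tri, Gr Q →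
  E1 (Lm Q) = E1 Q + len Q.1 ∧ E2 (Rm Q) = E2 Q + len Q.2.1 ∧
  ltau Q.2.1 ≤ E1 Q ∧ E1 Q ≤ len Q.2.1 ∧ ltau Q.1 ≤ E2 Q ∧ E2 Q ≤ len Q.1 ∧
  Real.exp (-len Q.2.2) ≤ E2 (Lm Q) + E1 (Rm Q) - len Q.2.2

/-- GF: the one-sided derivatives are exponentially close to the lengths. -/
def GF_stmt : Prop := ∀ (k t0 : ℝ), 0 ≤ k → 2 < t0 → ∃ C : ℝ, 0 < C ∧
  ∀ Q : Tri, Gr Q → kap Q ≤ k → t0 ≤ Q.1 → t0 ≤ Q.2.1 →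
    len Q.2.1 - E1 Q ≤ C * Real.exp (-(len Q.1 + len Q.2.1)) ∧
    len Q.1 - E2 Q ≤ C * Real.exp (-(len Q.1 + len Q.2.1))

/-- MN: monotonicity of the functionals along the tree. -/
def MN_stmt : Prop := ∀ (c c' k t0 : ℝ), Par c c' k t0 → ∀ (M n : ℕ) (x : Nd), GN c c' k t0 x →
  ∀ y ∈ lvs M n x, ∀ d1 d2 : ℤ, x.al d1 d2 ≤ 0 → 0 ≤ x.be d1 d2 →
    x.I d1 d2 ≤ y.I d1 d2 ∧ y.I d1 d2 ≤ y.La d1 d2 ∧ y.La d1 d2 ≤ y.S d1 d2 ∧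
    y.S d1 d2 ≤ x.S d1 d2 ∧ y.al d1 d2 ≤ 0 ∧ 0 ≤ y.be d1 d2

/-- RSA: the leaves resonant with one direction have total weight `≤ C / j`. -/
def RSA_stmt : Prop := ∀ (c c' k t0 : ℝ), Par c c' k t0 → ∀ κ : ℝ, 0 < κ → ∃ C : ℝ, 0 < C ∧
  ∀ (j M n : ℕ) (x : Nd) (d1 d2 : ℤ), 1 ≤ j → j ≤ M → GN c c' k t0 x → M ≤ x.m1 + x.m2 + n →
    d1 < 0 → 0 < d2 →
    lsum M n x (fun y => open Classical in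
      if |y.La d1 d2| ≤ Real.exp (-(κ * j)) then 1 / ((y.m1 : ℝ) * y.m2) else 0) ≤ C / j

/-- RSC: below a node of size `≈ C3 (k + 1)` at most one direction of size `< 2^(k+1)` is resonant. -/
def RSC_stmt : Prop := ∀ (c c' k t0 : ℝ), Par c c' k t0 → ∀ κ : ℝ, 0 < κ →
  ∃ C3 j1 : ℕ, 1 ≤ C3 ∧ ∀ (j M n q : ℕ) (x y y' : Nd) (d1 d2 e1 e2 : ℤ), j1 ≤ j → 2 ^ q ≤ j ^ 6 →
    GN c c' k t0 x → C3 * (q + 1) ≤ x.m1 + x.m2 → x.m1 + x.m2 ≤ 2 * (C3 * (q + 1)) →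
    y ∈ lvs M n x → y' ∈ lvs M n x →
    d1 < 0 → 0 < d2 → e1 < 0 → 0 < e2 → IsCoprime d1 d2 → IsCoprime e1 e2 →
    -(2 ^ (q + 1)) < d1 → d2 < 2 ^ (q + 1) → -(2 ^ (q + 1)) < e1 → e2 < 2 ^ (q + 1) →
    |y.La d1 d2| ≤ Real.exp (-(κ * j)) → |y'.La e1 e2| ≤ Real.exp (-(κ * j)) → d1 = e1 ∧ d2 = e2

/-- the resonant direction of a leaf -/
def dx (y : Nd) (a s : ℕ) : ℤ := s * y.w1 - a * y.v1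
/-- its second coordinate -/
def dy (y : Nd) (a s : ℕ) : ℤ := s * y.w2 - a * y.v2

/-- RSP: sign, primitivity and size of the resonant direction. -/
def RSP_stmt : Prop := ∀ P : Tri, Gr P → ∀ κ : ℝ, 0 < κ → ∃ c5 : ℝ, 0 < c5 ∧ ∃ j1 : ℕ,
  ∀ (j M : ℕ), j1 ≤ j → ∀ y ∈ lvs M M (rt P), ∀ a s : ℕ, Bad κ j y a s →
    dx y a s < 0 ∧ 0 < dy y a s ∧ IsCoprime (dx y a s) (dy y a s) ∧
    |y.La (dx y a s) (dy y a s)| ≤ Real.exp (-(κ * j)) ∧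
    c5 * (-(dx y a s : ℝ)) * y.m1 ≤ s ∧ c5 * (dy y a s : ℝ) * y.m1 ≤ s

/-- RSD: weight of the leaves resonant with a direction of size `< 2^(q+1)`. -/
def RSD_stmt : Prop := ∀ P : Tri, Gr P → ∀ κ : ℝ, 0 < κ → ∃ C : ℝ, 0 < C ∧ ∃ j1 : ℕ,
  ∀ (j M q : ℕ), j1 ≤ j → j ≤ M → 2 ^ q ≤ j ^ 6 → ∀ a s : Nd → ℕ,
    lsum M M (rt P) (fun y => open Classical in
      if Bad κ j y (a y) (s y) ∧ -(2 ^ (q + 1)) < dx y (a y) (s y) ∧ dy y (a y) (s y) < 2 ^ (q + 1)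
      then 1 / ((y.m1 : ℝ) * y.m2) else 0) ≤ C * ((q : ℝ) + 1) ^ 2 / j

/-- RS: total weight of the resonant leaves. -/
def RS_stmt : Prop := ∀ P : Tri, Gr P → ∀ κ : ℝ, 0 < κ → ∃ C : ℝ, 0 < C ∧ ∃ j1 : ℕ,
  ∀ (j M : ℕ), j1 ≤ j → j ≤ M → ∀ a s : Nd → ℕ,
    lsum M M (rt P) (fun y => open Classical in
      if Bad κ j y (a y) (s y) then 1 / (y.l2 * (s y : ℝ)) else 0) ≤ C / j

/-! ## Assembly -/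

/-- SW: the sandwich. -/
def SW_stmt : Prop := ∀ P : Tri, Gr P → ∃ C0 : ℕ, SWp P C0

/-- SSB: total size of the sawtooth sums. -/
def SSB_stmt : Prop := ∀ (P : Tri) (C0 : ℕ), Gr P → 1 ≤ C0 → ∃ C : ℝ, 0 < C ∧ ∃ j1 : ℕ,
  ∀ j : ℕ, j1 ≤ j → ∀ r : ℝ, 2 ^ j ≤ r → r ≤ 2 ^ (j + 2) →
    lsum (C0 * j) (C0 * j) (rt P) (fun y => |SS y.l1 y.l2 r|) ≤ C * r / j

/-- GP: the points between the curved and the straight boundary, summed over `d` in a block. -/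
def GP_stmt : Prop := ∀ (P : Tri) (C0 : ℕ), Gr P → SWp P C0 → ∃ C : ℝ, 0 < C ∧
  ∀ j : ℕ, 1 ≤ j → ∀ (R : ℝ) (N1 N2 : ℕ), 1 ≤ R → R / 2 ^ (j + 1) ≤ (N1 : ℝ) + 1 →
    (N2 : ℝ) ≤ R / 2 ^ j →
    lsum (C0 * j) (C0 * j) (rt P) (fun y => ∑ d ∈ Ioc N1 N2,
      (((HS y.t (R / d)).ncard : ℝ) - ((LinSet y.l1 y.l2 (R / d)).ncard : ℝ))) ≤
      C * (4 ^ j + R / 2 ^ j)

/-- AL: existence of the quadratic coefficient. -/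
def AL_stmt : Prop := ∀ (P : Tri) (C0 : ℕ), Gr P → SWp P C0 → ∃ α : ℝ, ALp P C0 α

/-- TB: trivial bound for the remainder. -/
def TB_stmt : Prop := ∀ (P : Tri) (C0 : ℕ) (α : ℝ), Gr P → SWp P C0 → ALp P C0 α →
  ∃ C : ℝ, 0 < C ∧ ∃ j1 : ℕ, ∀ j : ℕ, j1 ≤ j → ∀ r : ℝ, 2 ^ j ≤ r → r ≤ 2 ^ (j + 1) →
    |Ht P r - α * r ^ 2| ≤ C * r / j

/-- BB: Möbius sum over a block. -/
def BB_stmt : Prop := ∀ (P : Tri) (C0 : ℕ) (α : ℝ), Gr P → SWp P C0 → ALp P C0 α →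
  ∃ C : ℝ, 0 < C ∧ ∃ j1 : ℕ, ∀ j : ℕ, j1 ≤ j → ∀ (R : ℝ) (N1 N2 : ℕ), 2 ^ (16 * j) ≤ R →
    R / 2 ^ (j + 1) ≤ (N1 : ℝ) + 1 → (N2 : ℝ) ≤ R / 2 ^ j →
    |∑ d ∈ Ioc N1 N2, mu d * (Ht P (R / d) - α * (R / d) ^ 2)| ≤ C * R * (j : ℝ) ^ (-(6 / 5) : ℝ)

/-- FIN: growing triples. -/
def FIN_stmt : Prop := ∀ P : Tri, Gr P → MB P

/-- MBA: all triples. -/
def MBA_stmt : Prop := ∀ P : Tri, Adm P → MB P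

/-- TOT: helper72's `total_asymp` without Diophantine condition. -/
def TOT_stmt : Prop := ∀ P : Tri, Adm P →
  (∀ R, (CS P R).Finite) ∧ (∀ R, (CS (Tw P) R).Finite) ∧
    ∃ b K : ℝ, 0 < b ∧ 0 ≤ K ∧ ∀ R, 1 ≤ R →
      |(((CS P R).ncard : ℝ) + ((CS (Tw P) R).ncard : ℝ)) - b * R ^ 2| ≤ K * R

end AM
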