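import Mathlib
import Pool.Agent.helper72.SqT
import Pool.Agent.helper68.AM.Spec

/-!
Project sl: part X (MP_d52931_gt): the square-root law for families of FILLING curves, every metric.
A mapping class `φ` is a node of the Farey tree together with a quarter turn; the lengths of the
curves `φ γ` are compared with combinations of the lengths of `φ a`, `φ b`; the nodes are counted by
their mediants.
-/

set_option autoImplicit false

namespace AM

open Pool.Agent.helper72.Sq Matrix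

/-- the pair of words at the end of a path in the tree (`true`: left move `(u, v) ↦ (u, u v)`, `false`:
right move `(u, v) ↦ (u v, v)`; the first letter is the first move, as in `desc`) -/
def pd : List Bool → F2 × F2 → F2 × F2
  | [], x => x
  | true :: w, x => pd w (x.1, x.1 * x.2)
  | false :: w, x => pd w (x.1 * x.2, x.2)

/-- the roots of the two trees -/
def rootp (ε : Bool) : F2 × F2 := if ε then (ga, gb) else (gb, ga⁻¹)

/-- quarter turn of a pair -/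
def qt (x : F2 × F2) : F2 × F2 := (x.2, x.1⁻¹)

/-- index set: cone, path, quarter turns -/
abbrev Ix := Bool × List Bool × Fin 4

/-- the pair of an index -/
def pr (i : Ix) : F2 × F2 := qt^[i.2.2.val] (pd i.2.1 (rootp i.1))

/-- simultaneous conjugacy of pairs -/
def PConj (x y : F2 × F2) : Prop := ∃ c : F2, y.1 = c * x.1 * c⁻¹ ∧ y.2 = c * x.2 * c⁻¹

/-- XN: every mapping class is a node with a quarter turn. Closure induction: the set of pairs `y`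
with `∃ i, PConj (pr i) y` is stable under `(u, v) ↦ (u, u v), (u, u⁻¹ v), (u v, v), (u v⁻¹, v)`
(compare `pres_twA` ... in SqJ: e.g. if `(u, v) = pr (ε, w ++ [true], 0)` then the turned pair
`(v, u⁻¹) ↦ (v, v u⁻¹)` is conjugate to the right child of the parent). -/
def XN_stmt : Prop := ∀ φ : MulAut F2, φ ∈ MCG → ∃ i : Ix, PConj (pr i) (φ ga, φ gb)

/-- XM: every index comes from a mapping class (`W_mem_orb` in SqJ; quarter turn: the mapping class
`twB * twA⁻¹ * twB` maps `a ↦ b`, `b ↦ b⁻¹ a⁻¹ b`). -/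
def XM_stmt : Prop := ∀ i : Ix, ∃ φ : MulAut F2, φ ∈ MCG ∧ PConj (pr i) (φ ga, φ gb)

/-- XU: the index is unique up to the root (abelianise: the rows of the matrix of a node of the
first tree are in `ℕ²`, they determine the path; quarter turns rotate by 90 degrees). -/
def XU_stmt : Prop := ∀ i j : Ix, (∃ y, PConj (pr i) y ∧ PConj (pr j) y) →
  i = j ∨ (i.2.1 = [] ∧ j.2.1 = [])

/-- the curve of an index -/
def cv (γ : F2) (i : Ix) : Curve := cl (ev (pr i) γ)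

/-- lengths of the two elements of the pair of an index -/
noncomputable def lx (ρ : F2 →* SpecialLinearGroup (Fin 2) ℝ) (i : Ix) : ℝ := gLen ρ (pr i).1
/-- second length -/
noncomputable def ly (ρ : F2 →* SpecialLinearGroup (Fin 2) ℝ) (i : Ix) : ℝ := gLen ρ (pr i).2

/-- XF: counting curves by indices. The classes (simultaneous conjugacy) of the pairs `(φ a, φ b)`
form a transitive `MCG`-set which maps equivariantly onto the orbit of `γ`: all fibres have the same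
cardinality `s`, finite and `≥ 1`. An index determines a class, every class comes from exactly one
index except the 4 classes of the roots which come from exactly two (or at most 8) indices. -/
def XF_stmt : Prop := ∀ (ρ : F2 →* SpecialLinearGroup (Fin 2) ℝ) (γ : F2),
  (∀ R, {i : Ix | cLen ρ (cv γ i) ≤ R}.Finite) → ∃ s : ℕ, 1 ≤ s ∧
    (∀ R, {x : orb γ | cLen ρ x ≤ R}.Finite) ∧
    ∀ R : ℝ, |(({i : Ix | cLen ρ (cv γ i) ≤ R}.ncard : ℝ)) -
      s * ({x : orb γ | cLen ρ x ≤ R}.ncard : ℝ)| ≤ 8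

/-- XZ: nodes and primitive vectors: the node `w` has the mediant `(p, q)` with
`(1,1)` at the root, `(p + q, q)` for `true :: w`, `(p, p + q)` for `false :: w` (`Lam_L`, `Lam_R`), and
`Lam P p q = len (desc w P).2.2`. Only `(1, 0)` is missing. -/
def XZ_stmt : Prop := ∀ (P : Tri) (R : ℝ), (CS P R).Finite →
  {w : List Bool | len (desc w P).2.2 ≤ R}.Finite ∧
  |(({w : List Bool | len (desc w P).2.2 ≤ R}.ncard : ℝ)) - ((CS P R).ncard : ℝ)| ≤ 1

/-- XB: for all nodes the length of the mediant is the sum of the lengths up to a constant. For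
growing nodes: `z ≥ x y / 2` and `Gr.len_z_le`. There are only finitely many nodes which are not
growing (see `Good_of_AllDio_aux` in SqG for the descent; a node below a growing node is growing). -/
def XB_stmt : Prop := ∀ P : Tri, Adm P → ∃ C : ℝ, ∀ w : List Bool,
  |len (desc w P).1 + len (desc w P).2.1 - len (desc w P).2.2| ≤ C

/-- XI: traces and lengths of the pairs of the two trees (`trTri_L`, `trTri_R`, `trTri_Tw`, `tr_inv`);
all traces are larger than 2. -/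
def XI_stmt : Prop := ∀ ρ : F2 →* SpecialLinearGroup (Fin 2) ℝ, Adm (trTri ρ (ga, gb)) →
  ∀ (ε : Bool) (w : List Bool) (τ : Fin 4),
    let Q := desc w (if ε then trTri ρ (ga, gb) else Tw (trTri ρ (ga, gb)))
    Adm Q ∧
    (τ.val % 2 = 0 → lx ρ (ε, w, τ) = len Q.1 ∧ ly ρ (ε, w, τ) = len Q.2.1) ∧
    (τ.val % 2 = 1 → lx ρ (ε, w, τ) = len Q.2.1 ∧ ly ρ (ε, w, τ) = len Q.1)

/-- quadratic growth with linear error of the number of indices of weight `≤ R` -/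
def GW (f : Ix → ℝ) : Prop := (∀ R, {i : Ix | f i ≤ R}.Finite) ∧
  ∃ b K : ℝ, 0 < b ∧ ∀ R : ℝ, 1 ≤ R → |(({i : Ix | f i ≤ R}.ncard : ℝ)) - b * R ^ 2| ≤ K * R

/-- XA1: weight `g (lx + ly)`: `g * len z` up to a constant (XB), four quarter turns, XZ, TOT. -/
def XA1_stmt : Prop := ∀ ρ : F2 →* SpecialLinearGroup (Fin 2) ℝ, Adm (trTri ρ (ga, gb)) →
  ∀ g : ℝ, 0 < g → GW (fun i => g * (lx ρ i + ly ρ i))

/-- XA2: weight `g (lx + 2 ly)`. For a node with lengths `l1, l2`: even quarter turns give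
`g (l1 + 2 l2)` = `g * len z` of the right child (`w ++ [false]`) up to a constant, odd ones give
`g (l2 + 2 l1)` = `g * len z` of the left child. So each of the nodes `≠ []` is counted twice. -/
def XA2_stmt : Prop := ∀ ρ : F2 →* SpecialLinearGroup (Fin 2) ℝ, Adm (trTri ρ (ga, gb)) →
  ∀ g : ℝ, 0 < g → GW (fun i => g * (lx ρ i + 2 * ly ρ i))

/-- XA3: the same with the roles exchanged. -/
def XA3_stmt : Prop := ∀ ρ : F2 →* SpecialLinearGroup (Fin 2) ℝ, Adm (trTri ρ (ga, gb)) →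
  ∀ g : ℝ, 0 < g → GW (fun i => g * (2 * lx ρ i + ly ρ i))

/-- XA4: weight `g max (lx, ly)`. For a child of the node `w` one of the two elements is the mediant of
`w`, whose length is the larger one up to a constant: each node is counted eight times. -/
def XA4_stmt : Prop := ∀ ρ : F2 →* SpecialLinearGroup (Fin 2) ℝ, Adm (trTri ρ (ga, gb)) →
  ∀ g : ℝ, 0 < g → GW (fun i => g * max (lx ρ i) (ly ρ i))

/-- XP: a bounded perturbation of the weight. -/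
def XP_stmt : Prop := ∀ (f f' : Ix → ℝ) (C : ℝ), GW f → (∀ i, |f' i - f i| ≤ C) → GW f'

/-- `γ` has lengths of type `q` -/
def LT (ρ : F2 →* SpecialLinearGroup (Fin 2) ℝ) (γ : F2) (q : ℝ → ℝ → ℝ) : Prop :=
  ∃ C : ℝ, ∀ φ : MulAut F2, φ ∈ MCG → |gLen ρ (φ γ) - q (gLen ρ (φ ga)) (gLen ρ (φ gb))| ≤ C

/-- XL: the law from the count. Indices: XM gives `φ` with `PConj (pr i) (φ a, φ b)`, hence
`cLen ρ (cv γ i) = gLen ρ (φ γ)` (`ev_MCG`, conjugation), `lx`, `ly` are the lengths of `φ a`, `φ b`;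
XP, XF, `kth_law` (nonnegativity of `gLen`: `arcosh`, see `Real.arcosh_nonneg`; if `arcosh` of numbers
`< 1` is negative, use that `|tr| ≥ 2`: not needed, `kth_law` can be applied to `cLen + const` or to
`max (cLen) 0` as in `perturb`). -/
def XL_stmt : Prop := ∀ (ρ : F2 →* SpecialLinearGroup (Fin 2) ℝ) (γ : F2) (q : ℝ → ℝ → ℝ),
  Adm (trTri ρ (ga, gb)) → GW (fun i => q (lx ρ i) (ly ρ i)) → LT ρ γ q → SqrtLaw ρ γ

/-- XE: traces of the mapping class images. `tr_gt`, `kom_MCG`; `a b = twB a`, `b` is conjugate to the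
image of `a` under `twB * twA⁻¹ * twB`; `a⁻¹ b`: inverse of an image of `a`. -/
def XE_stmt : Prop := ∀ ρ : F2 →* SpecialLinearGroup (Fin 2) ℝ, Adm (trTri ρ (ga, gb)) →
  ∀ φ : MulAut F2, φ ∈ MCG → 2 < tr (ρ (φ ga)) ∧ 2 < tr (ρ (φ gb)) ∧ 2 < tr (ρ (φ ga) * ρ (φ gb)) ∧
    2 < tr ((ρ (φ ga))⁻¹ * ρ (φ gb)) ∧
    tr (ρ (φ ga) * ρ (φ gb) * (ρ (φ ga))⁻¹ * (ρ (φ gb))⁻¹) = -2 - kap (trTri ρ (ga, gb))

/-- Chebyshev numbers: `A ^ n = sn x n • A - sn x (n - 1) • 1` for `tr A = x` -/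
noncomputable def sn (x : ℝ) : ℕ → ℝ
  | 0 => 0
  | 1 => 1
  | n + 2 => x * sn x (n + 1) - sn x n

/-- XC: size of the Chebyshev numbers, `sn x n = Σ_{k < n} e^{(n - 1 - 2k) l / 2}`, `l = len x`. -/
def XC_stmt : Prop := ∀ (x : ℝ) (n : ℕ), 2 ≤ x → 1 ≤ n → 1 ≤ sn x n ∧
  |2 * Real.log (sn x n) - (n - 1) * len x| ≤ 2 * Real.log n ∧
  sn x n ≤ sn x (n + 1) ∧ x * sn x n ≤ 2 * sn x (n + 1)

/-- XQ: positivity of the traces of `A^i B^j`. Put `X = A^i`, `Y = B^j`: `tr (X Y) + tr (X⁻¹ Y) = tr X tr Y`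
and `tr (X Y) tr (X⁻¹ Y) = (tr X)² + (tr Y)² - 2 - tr [X, Y]` (`tr_commutator`), and
`tr [X, Y] - 2 = (sn x i * sn y j)² (tr [A, B] - 2)` (write `X = p A - p'`, `p² - p p' x + p'² = 1`). -/
def XQ_stmt : Prop := ∀ (A B : SpecialLinearGroup (Fin 2) ℝ), 2 ≤ tr A → 2 ≤ tr B →
  tr (A * B * A⁻¹ * B⁻¹) ≤ -2 → ∀ i j : ℕ,
    0 < tr (A ^ i * B ^ j) ∧ 0 < tr ((A ^ i)⁻¹ * B ^ j) ∧
    tr (A ^ i * B ^ j) ≤ tr (A ^ i) * tr (B ^ j) ∧ tr ((A ^ i)⁻¹ * B ^ j) ≤ tr (A ^ i) * tr (B ^ j)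

/-- XT: the trace of `A^n1 B^m1 A^-n2 B^-m2` is negative and comparable with
`sn x n1 * sn y m1 * sn x n2 * sn y m2`. Reduce the exponents to 1 one after the other: e.g.
`A^n1 = p A - p'` gives `T(n1) = p T(1) - p' T(0)` and `T(0) = tr (A^-n2 B^(m1-m2))` is in
`(0, tr (A^n2) tr (B^|m1-m2|)]` by XQ; at the end `T(1,1,1,1) = tr [A, B]`. -/
def XT_stmt : Prop := ∀ (A B : SpecialLinearGroup (Fin 2) ℝ) (τ : ℝ), 2 ≤ tr A → 2 ≤ tr B →
  tr (A * B * A⁻¹ * B⁻¹) = τ → τ ≤ -2 → ∀ n1 m1 n2 m2 : ℕ, 1 ≤ n1 → 1 ≤ m1 → 1 ≤ n2 → 1 ≤ m2 →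
    tr (A ^ n1 * B ^ m1 * (A ^ n2)⁻¹ * (B ^ m2)⁻¹) ≤
      τ * (sn (tr A) n1 * sn (tr B) m1 * sn (tr A) n2 * sn (tr B) m2) ∧
    (τ - 16) * (sn (tr A) n1 * sn (tr B) m1 * sn (tr A) n2 * sn (tr B) m2) ≤
      tr (A ^ n1 * B ^ m1 * (A ^ n2)⁻¹ * (B ^ m2)⁻¹)

/-- the words with four syllables -/
def w4 (n1 m1 n2 m2 : ℕ) : F2 := ga ^ n1 * gb ^ m1 * (ga ^ n2)⁻¹ * (gb ^ m2)⁻¹

/-- XW: their lengths. -/
def XW_stmt : Prop := ∀ ρ : F2 →* SpecialLinearGroup (Fin 2) ℝ, Adm (trTri ρ (ga, gb)) →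
  ∀ n1 m1 n2 m2 : ℕ, 1 ≤ n1 → 1 ≤ m1 → 1 ≤ n2 → 1 ≤ m2 →
    LT ρ (w4 n1 m1 n2 m2) (fun l l' => ((n1 + n2 : ℝ) - 2) * l + ((m1 + m2 : ℝ) - 2) * l')

/-- XW2: the curve `a³ b²`: `tr (A³ B²) = tr (A² B) tr (A B) + (1 - τ) tr A` with `τ = tr [A, B]`, and
`tr A = tr V tr W - tr (V W) ≤ tr V tr W` for `V = A² B`, `W = A B` (up to conjugation). -/
def XW2_stmt : Prop := ∀ ρ : F2 →* SpecialLinearGroup (Fin 2) ℝ, Adm (trTri ρ (ga, gb)) →
  ∃ C : ℝ, ∀ φ : MulAut F2, φ ∈ MCG →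
    |gLen ρ (φ (ga ^ 3 * gb ^ 2)) - (gLen ρ (φ (ga ^ 2 * gb)) + gLen ρ (φ (ga * gb)))| ≤ C

/-- XW3: the curve `a⁴ b²`: `tr (A⁴ B²) = (2 - τ) (tr A)² + (tr (A² B))² - 2`. -/
def XW3_stmt : Prop := ∀ ρ : F2 →* SpecialLinearGroup (Fin 2) ℝ, Adm (trTri ρ (ga, gb)) →
  ∃ C : ℝ, ∀ φ : MulAut F2, φ ∈ MCG →
    |gLen ρ (φ (ga ^ 4 * gb ^ 2)) - 2 * max (gLen ρ (φ ga)) (gLen ρ (φ (ga ^ 2 * gb)))| ≤ C

/-- XR: replace `γ` by `θ⁻¹ γ`: orbits (`orb (φ g) = orb g`, see `AM.orb_map` in helper68/AM/Law.lean) and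
types. `twA * twB` maps `a ↦ a (a b)`, `b ↦ a b`; `twA ^ 2` maps `a ↦ a`, `b ↦ a² b`. -/
def XR_stmt : Prop := ∀ (ρ : F2 →* SpecialLinearGroup (Fin 2) ℝ) (γ : F2) (q : ℝ → ℝ → ℝ)
  (θ : MulAut F2), θ ∈ MCG →
  (∃ C : ℝ, ∀ φ : MulAut F2, φ ∈ MCG →
    |gLen ρ (φ γ) - q (gLen ρ (φ (θ ga))) (gLen ρ (φ (θ gb)))| ≤ C) →
  LT ρ (θ⁻¹ γ) q ∧ (SqrtLaw ρ (θ⁻¹ γ) → SqrtLaw ρ γ)

/-- XG: curves whose lengths control the lengths of `φ a` and `φ b` fill. If `θ γ` is conjugate to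
`w ∈ pants`, then `twA^k θ γ` all have the same length (`twA_pow_pants`), so the pairs
`(cl (twA^k θ a), cl (twA^k θ b))` take finitely many values; homology (`ab_twA_pow`, as in `claimB` of
SqT) gives a contradiction since `θ a`, `θ b` are not both in the span of `a` modulo commutators. -/
def XG_stmt : Prop := ∀ (ρ : F2 →* SpecialLinearGroup (Fin 2) ℝ) (γ : F2) (C : ℝ),
  (∀ R, {x : orb ga | cLen ρ x ≤ R}.Finite) →
  (∀ φ : MulAut F2, φ ∈ MCG → max (gLen ρ (φ ga)) (gLen ρ (φ gb)) ≤ C * gLen ρ (φ γ) + C) →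
  ¬ NonFilling γ

end AM
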