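import Mathlib
import Pool.Agent.helper68.AM.Base

/-!
Project sl: (AM): basic facts on the Farey tree of nodes and sums over leaves.
-/

set_option autoImplicit false

namespace AM

open Pool.Agent.helper72.Sq Finset

lemma Par_of_Gr {P : Tri} (h : Gr P) :
    Par (min (ltau P.1) (ltau P.2.1)) (max (len P.1) (len P.2.1)) (kap P) (min P.1 P.2.1) := by
  refine ⟨lt_min (ltau_pos h.x2) (ltau_pos h.y2), ?_, h.kpos.le, lt_min h.x2 h.y2⟩
  exact (min_le_left _ _).trans ((ltau_le_len h.x2.le).trans (le_max_left _ _))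

lemma GN_rt {P : Tri} (h : Gr P) :
    GN (min (ltau P.1) (ltau P.2.1)) (max (len P.1) (len P.2.1)) (kap P) (min P.1 P.2.1) (rt P) :=
  ⟨ND_root h, by simp [rt]⟩

section
variable {c c' k t0 : ℝ} {x : Nd}

lemma GN.gr (h : GN c c' k t0 x) : Gr x.t := h.1.gr

lemma GN.m1_pos (h : GN c c' k t0 x) : 1 ≤ x.m1 := by
  have h2 := h.2
  unfold Nd.m1
  rcases Nat.eq_zero_or_pos x.v1 with h0 | h0
  · rw [h0, zero_mul] at h2; omega
  · omega

lemma GN.m2_pos (h : GN c c' k t0 x) : 1 ≤ x.m2 := by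
  have h2 := h.2
  unfold Nd.m2
  rcases Nat.eq_zero_or_pos x.w2 with h0 | h0
  · rw [h0, mul_zero] at h2; omega
  · omega

lemma GN.L (h : GN c c' k t0 x) : GN c c' k t0 x.L := by
  refine ⟨?_, ?_⟩
  · have := h.1.L
    unfold Nd.L Nd.m1 Nd.m2 at *
    simp only at *
    rwa [show x.v1 + x.w1 + (x.v2 + x.w2) = x.v1 + x.v2 + (x.w1 + x.w2) by ring]
  · have h2 := h.2
    simp only [Nd.L]
    nlinarith

lemma GN.R (h : GN c c' k t0 x) : GN c c' k t0 x.R := by
  refine ⟨?_, ?_⟩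
  · have := h.1.R
    unfold Nd.R Nd.m1 Nd.m2 at *
    simp only at *
    rwa [show x.v1 + x.w1 + (x.v2 + x.w2) = x.v1 + x.v2 + (x.w1 + x.w2) by ring]
  · have h2 := h.2
    simp only [Nd.R]
    nlinarith

lemma L_m1 (x : Nd) : x.L.m1 = x.m1 := rfl
lemma L_m2 (x : Nd) : x.L.m2 = x.m1 + x.m2 := by simp only [Nd.L, Nd.m1, Nd.m2]; ring
lemma R_m1 (x : Nd) : x.R.m1 = x.m1 + x.m2 := by simp only [Nd.R, Nd.m1, Nd.m2]; ring
lemma R_m2 (x : Nd) : x.R.m2 = x.m2 := rfl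

lemma GN_lvs (M : ℕ) : ∀ (n : ℕ) (x : Nd), GN c c' k t0 x → ∀ y ∈ lvs M n x, GN c c' k t0 y := by
  intro n
  induction n with
  | zero => intro x h y hy; simp only [lvs, List.mem_singleton] at hy; rw [hy]; exact h
  | succ n ih =>
    intro x h y hy
    simp only [lvs] at hy
    split_ifs at hy with hM
    · rw [List.mem_singleton] at hy; rw [hy]; exact h
    · rw [List.mem_append] at hy
      rcases hy with hy | hy
      · exact ih _ h.L y hy
      · exact ih _ h.R y hy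

/-- leaves have size `≥ M` (enough fuel). -/
lemma lvs_ge (M : ℕ) : ∀ (n : ℕ) (x : Nd), GN c c' k t0 x → M ≤ x.m1 + x.m2 + n →
    ∀ y ∈ lvs M n x, M ≤ y.m1 + y.m2 := by
  intro n
  induction n with
  | zero => intro x _ hM y hy; simp only [lvs, List.mem_singleton] at hy; rw [hy]; exact hM
  | succ n ih =>
    intro x h hM y hy
    simp only [lvs] at hy
    split_ifs at hy with hM2
    · rw [List.mem_singleton] at hy; rw [hy]; exact hM2
    · rw [List.mem_append] at hy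
      have h1 := h.m1_pos
      have h2 := h.m2_pos
      rcases hy with hy | hy
      · exact ih _ h.L (by rw [L_m1, L_m2]; omega) y hy
      · exact ih _ h.R (by rw [R_m1, R_m2]; omega) y hy

end

/-- leaves have `m1, m2 ≤ M`. -/
lemma lvs_le (M : ℕ) : ∀ (n : ℕ) (x : Nd), x.m1 ≤ M → x.m2 ≤ M →
    ∀ y ∈ lvs M n x, y.m1 ≤ M ∧ y.m2 ≤ M := by
  intro n
  induction n with
  | zero =>
    intro x h1 h2 y hy; simp only [lvs, List.mem_singleton] at hy; rw [hy]; exact ⟨h1, h2⟩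
  | succ n ih =>
    intro x h1 h2 y hy
    simp only [lvs] at hy
    split_ifs at hy with hM
    · rw [List.mem_singleton] at hy; rw [hy]; exact ⟨h1, h2⟩
    · rw [List.mem_append] at hy
      rcases hy with hy | hy
      · exact ih _ (by rw [L_m1]; exact h1) (by rw [L_m2]; omega) y hy
      · exact ih _ (by rw [R_m1]; omega) (by rw [R_m2]; exact h2) y hy

lemma lsum_zero (M : ℕ) (x : Nd) (f : Nd → ℝ) : lsum M 0 x f = f x := by simp [lsum, lvs]

lemma lsum_succ (M n : ℕ) (x : Nd) (f : Nd → ℝ) :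
    lsum M (n + 1) x f = if M ≤ x.m1 + x.m2 then f x else lsum M n x.L f + lsum M n x.R f := by
  unfold lsum
  simp only [lvs]
  split_ifs
  · simp
  · rw [List.map_append, List.sum_append]

lemma lsum_add (M n : ℕ) (x : Nd) (f g : Nd → ℝ) :
    lsum M n x (fun y => f y + g y) = lsum M n x f + lsum M n x g := by
  unfold lsum
  exact List.sum_map_add

lemma lsum_mul (M n : ℕ) (x : Nd) (a : ℝ) (f : Nd → ℝ) :
    lsum M n x (fun y => a * f y) = a * lsum M n x f := by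
  unfold lsum
  induction lvs M n x with
  | nil => simp
  | cons b l ih =>
    simp only [List.map_cons, List.sum_cons]
    rw [ih]; ring

lemma lsum_congr (M n : ℕ) (x : Nd) (f g : Nd → ℝ) (h : ∀ y ∈ lvs M n x, f y = g y) :
    lsum M n x f = lsum M n x g := by
  unfold lsum
  rw [List.map_congr_left h]

lemma lsum_le (M n : ℕ) (x : Nd) (f g : Nd → ℝ) (h : ∀ y ∈ lvs M n x, f y ≤ g y) :
    lsum M n x f ≤ lsum M n x g := by
  unfold lsum
  exact List.sum_le_sum h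

lemma lsum_nonneg (M n : ℕ) (x : Nd) (f : Nd → ℝ) (h : ∀ y ∈ lvs M n x, 0 ≤ f y) :
    0 ≤ lsum M n x f := by
  unfold lsum
  apply List.sum_nonneg
  intro a ha
  rw [List.mem_map] at ha
  obtain ⟨y, hy, rfl⟩ := ha
  exact h y hy

lemma lsum_abs (M n : ℕ) (x : Nd) (f : Nd → ℝ) :
    |lsum M n x f| ≤ lsum M n x (fun y => |f y|) := by
  unfold lsum
  induction lvs M n x with
  | nil => simp
  | cons a l ih =>
    simp only [List.map_cons, List.sum_cons]
    exact (abs_add_le _ _).trans (by linarith)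

/-- a leaf sum of a finite sum is the finite sum of the leaf sums -/
lemma lsum_sum {ι : Type*} (M n : ℕ) (x : Nd) (s : Finset ι) (f : ι → Nd → ℝ) :
    lsum M n x (fun y => ∑ i ∈ s, f i y) = ∑ i ∈ s, lsum M n x (f i) := by
  classical
  induction s using Finset.induction_on with
  | empty =>
    simp only [Finset.sum_empty]
    unfold lsum
    simp
  | insert a s ha ih =>
    rw [Finset.sum_insert ha, ← ih, ← lsum_add]
    congr 1
    funext y
    rw [Finset.sum_insert ha]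

/-- an additive quantity is the sum over the leaves -/
lemma lsum_eq_of_add {c c' k t0 : ℝ} (M : ℕ) (f : Nd → ℝ)
    (hf : ∀ x, GN c c' k t0 x → f x = f x.L + f x.R) :
    ∀ (n : ℕ) (x : Nd), GN c c' k t0 x → lsum M n x f = f x := by
  intro n
  induction n with
  | zero => intro x _; exact lsum_zero _ _ _
  | succ n ih =>
    intro x hx
    rw [lsum_succ]
    split_ifs
    · rfl
    · rw [ih _ hx.L, ih _ hx.R, ← hf x hx]

/-- leafwise bound by a superadditive quantity -/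
lemma lsum_le_of_super {c c' k t0 : ℝ} (M : ℕ) (f g : Nd → ℝ)
    (hg : ∀ x, GN c c' k t0 x → x.m1 + x.m2 < M → g x.L + g x.R ≤ g x) :
    ∀ (n : ℕ) (x : Nd), GN c c' k t0 x → (∀ y ∈ lvs M n x, f y ≤ g y) → lsum M n x f ≤ g x := by
  intro n
  induction n with
  | zero =>
    intro x _ h
    rw [lsum_zero]
    exact h x (by simp [lvs])
  | succ n ih =>
    intro x hx h
    rw [lsum_succ]
    split_ifs with hM
    · exact h x (by simp [lvs, hM])
    · have h1 : ∀ y ∈ lvs M n x.L, f y ≤ g y := fun y hy => h y (by simp [lvs, hM, hy])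
      have h2 : ∀ y ∈ lvs M n x.R, f y ≤ g y := fun y hy => h y (by simp [lvs, hM, hy])
      exact (add_le_add (ih _ hx.L h1) (ih _ hx.R h2)).trans (hg x hx (by omega))

lemma weight_split {c c' k t0 : ℝ} {x : Nd} (hx : GN c c' k t0 x) :
    1 / ((x.m1 : ℝ) * x.m2) = 1 / ((x.L.m1 : ℝ) * x.L.m2) + 1 / ((x.R.m1 : ℝ) * x.R.m2) := by
  have h1 : (0 : ℝ) < x.m1 := by exact_mod_cast hx.m1_pos
  have h2 : (0 : ℝ) < x.m2 := by exact_mod_cast hx.m2_pos
  rw [L_m1, L_m2, R_m1, R_m2]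
  push_cast
  field_simp
  try ring

/-- the weights `1 / (m1 m2)` of the leaves sum up to the weight of the node. -/
lemma lsum_weight {c c' k t0 : ℝ} (M n : ℕ) (x : Nd) (hx : GN c c' k t0 x) :
    lsum M n x (fun y => 1 / ((y.m1 : ℝ) * y.m2)) = 1 / ((x.m1 : ℝ) * x.m2) :=
  lsum_eq_of_add M _ (fun _ hz => weight_split hz) n x hx

/-- number of leaves -/
lemma lsum_one {c c' k t0 : ℝ} (M n : ℕ) (x : Nd) (hx : GN c c' k t0 x) (h1 : x.m1 ≤ M)
    (h2 : x.m2 ≤ M) : lsum M n x (fun _ => 1) ≤ (M : ℝ) ^ 2 / ((x.m1 : ℝ) * x.m2) := by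
  have e : (M : ℝ) ^ 2 / ((x.m1 : ℝ) * x.m2) =
      lsum M n x (fun y => (M : ℝ) ^ 2 * (1 / ((y.m1 : ℝ) * y.m2))) := by
    rw [lsum_mul, lsum_weight M n x hx]; ring
  rw [e]
  apply lsum_le
  intro y hy
  have hG := GN_lvs M n x hx y hy
  obtain ⟨a1, a2⟩ := lvs_le M n x h1 h2 y hy
  have b1 : (1 : ℝ) ≤ y.m1 := by exact_mod_cast hG.m1_pos
  have b2 : (1 : ℝ) ≤ y.m2 := by exact_mod_cast hG.m2_pos
  have c1 : (y.m1 : ℝ) ≤ M := by exact_mod_cast a1
  have c2 : (y.m2 : ℝ) ≤ M := by exact_mod_cast a2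
  rw [mul_one_div, le_div_iff₀ (by positivity), one_mul, sq]
  exact mul_le_mul c1 c2 (by linarith) (by linarith)

lemma rt_m1 (P : Tri) : (rt P).m1 = 1 := rfl
lemma rt_m2 (P : Tri) : (rt P).m2 = 1 := rfl

/-- number of leaves of the whole tree -/
lemma lsum_one_rt {P : Tri} (h : Gr P) (M : ℕ) (hM : 1 ≤ M) :
    lsum M M (rt P) (fun _ => 1) ≤ (M : ℝ) ^ 2 := by
  have := lsum_one M M (rt P) (GN_rt h) (by rw [rt_m1]; exact hM) (by rw [rt_m2]; exact hM)
  rw [rt_m1, rt_m2] at this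
  simpa using this

/-- sum of a bounded function -/
lemma lsum_le_const {P : Tri} (h : Gr P) (M : ℕ) (hM : 1 ≤ M) (f : Nd → ℝ) (K : ℝ) (hK : 0 ≤ K)
    (hf : ∀ y ∈ lvs M M (rt P), f y ≤ K) : lsum M M (rt P) f ≤ (M : ℝ) ^ 2 * K := by
  calc lsum M M (rt P) f ≤ lsum M M (rt P) (fun _ => K * 1) := lsum_le _ _ _ _ _ (by
        intro y hy; rw [mul_one]; exact hf y hy)
    _ = K * lsum M M (rt P) (fun _ => 1) := lsum_mul _ _ _ _ _
    _ ≤ K * (M : ℝ) ^ 2 := mul_le_mul_of_nonneg_left (lsum_one_rt h M hM) hK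
    _ = _ := by ring

/-- `H` is the sum over the leaves -/
lemma lsum_H {P : Tri} (h : Gr P) (M n : ℕ) (r : ℝ) :
    lsum M n (rt P) (fun y => H y.t r) = H P r :=
  lsum_eq_of_add M (fun y => H y.t r)
    (fun x hx => H_split x.t r (HS_finite hx.gr.L r) (HS_finite hx.gr.R r)) n (rt P) (GN_rt h)

/-- `Ht` is the sum over the leaves -/
lemma lsum_Ht {P : Tri} (h : Gr P) (M n : ℕ) (r : ℝ) :
    lsum M n (rt P) (fun y => Ht y.t r) = Ht P r :=
  lsum_eq_of_add M (fun y => Ht y.t r)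
    (fun x hx => Ht_split r (HS_finite hx.gr.L r) (HS_finite hx.gr.R r)) n (rt P) (GN_rt h)

section
variable {c c' k t0 : ℝ} {x : Nd}

lemma GN.l1_ge (h : GN c c' k t0 x) : c * x.m1 ≤ x.l1 := h.1.lx.trans (ltau_le_len h.gr.x2.le)
lemma GN.l2_ge (h : GN c c' k t0 x) : c * x.m2 ≤ x.l2 := h.1.ly.trans (ltau_le_len h.gr.y2.le)
lemma GN.l1_le (h : GN c c' k t0 x) : x.l1 ≤ c' * x.m1 := h.1.ux
lemma GN.l2_le (h : GN c c' k t0 x) : x.l2 ≤ c' * x.m2 := h.1.uy

lemma GN.l1_ge' (h : GN c c' k t0 x) (hc : 0 < c) : c ≤ x.l1 := by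
  have h1 : (1 : ℝ) ≤ x.m1 := by exact_mod_cast h.m1_pos
  exact (le_mul_of_one_le_right hc.le h1).trans h.l1_ge

lemma GN.l2_ge' (h : GN c c' k t0 x) (hc : 0 < c) : c ≤ x.l2 := by
  have h1 : (1 : ℝ) ≤ x.m2 := by exact_mod_cast h.m2_pos
  exact (le_mul_of_one_le_right hc.le h1).trans h.l2_ge

lemma al_L (x : Nd) (d1 d2 : ℤ) : x.L.al d1 d2 = x.al d1 d2 - x.be d1 d2 := by
  simp only [Nd.L, Nd.al, Nd.be]; push_cast; ring
lemma be_L (x : Nd) (d1 d2 : ℤ) : x.L.be d1 d2 = x.be d1 d2 := rfl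
lemma al_R (x : Nd) (d1 d2 : ℤ) : x.R.al d1 d2 = x.al d1 d2 := rfl
lemma be_R (x : Nd) (d1 d2 : ℤ) : x.R.be d1 d2 = x.be d1 d2 - x.al d1 d2 := by
  simp only [Nd.R, Nd.al, Nd.be]; push_cast; ring

end

end AM
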