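import Mathlib
import Pool.Agent.helper72.SqT
import Pool.Agent.helper68.AM.Spec

/-!
Project sl: (AM), MP_d52931_gt: from the count of the simple curves (`TOT_stmt`) to the square-root
law for every metric and every curve that does not fill. The proofs are those of helper72 (SqT.lean
and the almost-everywhere hand-in) with `TOT_stmt` in place of the Diophantine hypothesis.
-/

set_option autoImplicit false

namespace AM

open Pool.Agent.helper72.Sq Matrix Filter Topology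

/-- the count for the simple curve -/
lemma count_simple (hT : TOT_stmt) (ρ : F2 →* SpecialLinearGroup (Fin 2) ℝ)
    (hA : Adm (trTri ρ (ga, gb))) :
    (∀ R, {x : orb ga | cLen ρ x ≤ R}.Finite) ∧ (∀ x : orb ga, 0 ≤ cLen ρ x) ∧
    ∃ b K : ℝ, 0 < b ∧ 0 ≤ K ∧ ∀ R, 1 ≤ R →
      |({x : orb ga | cLen ρ x ≤ R}.ncard : ℝ) - b * R ^ 2| ≤ K * R := by
  obtain ⟨f1, f2, b, K, hb, hK, h⟩ := hT _ hA
  set P := trTri ρ (ga, gb) with hP
  have himg := sublevel_eq ρ hA
  have hfin : ∀ R, {x : orb ga | cLen ρ x ≤ R}.Finite := by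
    intro R
    have : (Subtype.val '' {x : orb ga | cLen ρ x ≤ R} : Set Curve).Finite := by
      rw [himg R]
      exact ((f1 R).image _).union ((f2 R).image _)
    exact this.of_finite_image Subtype.val_injective.injOn
  have hcard : ∀ R, ({x : orb ga | cLen ρ x ≤ R}.ncard : ℝ) =
      ((CS P R).ncard : ℝ) + ((CS (Tw P) R).ncard : ℝ) := by
    intro R
    rw [← Set.ncard_image_of_injective {x : orb ga | cLen ρ x ≤ R} Subtype.val_injective, himg R,
      Set.ncard_union_eq _ ((f1 R).image _) ((f2 R).image _), Set.InjOn.ncard_image,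
      Set.InjOn.ncard_image]
    · push_cast; rfl
    · rintro ⟨p, q⟩ h ⟨p', q'⟩ h' heq
      obtain ⟨_, e1, e2⟩ := Wc_inj h.1 h'.1 heq
      simp only at e1 e2
      rw [e1, e2]
    · rintro ⟨p, q⟩ h ⟨p', q'⟩ h' heq
      obtain ⟨_, e1, e2⟩ := Wc_inj h.1 h'.1 heq
      simp only at e1 e2
      rw [e1, e2]
    · rw [Set.disjoint_left]
      rintro c ⟨⟨p, q⟩, h, rfl⟩ ⟨⟨p', q'⟩, h', heq⟩
      obtain ⟨e0, _, _⟩ := Wc_inj h'.1 h.1 heq
      exact absurd e0 (by decide)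
  have hpos : ∀ x : orb ga, 0 ≤ cLen ρ x := by
    rintro ⟨c, hc⟩
    rw [orb_eq] at hc
    obtain ⟨ε, p, q, hp, hcop, rfl⟩ := hc
    cases ε
    · rw [cLen_false ρ hA p q hp hcop]; exact (Lam_pos _ _ _ hp hA.Tw).le
    · rw [cLen_true ρ hA p q hp hcop]; exact (Lam_pos _ _ _ hp hA).le
  refine ⟨hfin, hpos, b, K, hb, hK, ?_⟩
  intro R hR
  rw [hcard R]
  exact h R hR

/-- the law for the curves of the pair of pants -/
theorem pants_law (hT : TOT_stmt) (ρ : F2 →* SpecialLinearGroup (Fin 2) ℝ)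
    (hA : Adm (trTri ρ (ga, gb))) {w : F2}
    (hw : w ∈ pants) (hper : ¬ ∃ m : ℤ, IsConj w (kom ^ m)) :
    (∃ e : ℕ ≃ orb w, Monotone (fun k => cLen ρ (e k))) ∧
    ∃ u C : ℝ, 0 < u ∧ ∀ e : ℕ ≃ orb w, Monotone (fun k => cLen ρ (e k)) →
      ∀ k : ℕ, |u * √((k : ℝ) + 1) - cLen ρ (e k)| ≤ C := by
  obtain ⟨hfin, hpos, b, K, hb, hK, hcount⟩ := count_simple hT ρ hA
  obtain ⟨n, C, hn, hC, hcmp⟩ := comparison ρ hA hfin hw hper
  obtain ⟨i0, hi0, hiconj⟩ := exists_i0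
  have hi0cl : ∀ (φ : MulAut F2) (x : F2), cl (φ (iot x)) = cl ((φ * i0) x) := by
    intro φ x
    rw [MulAut.mul_apply]
    exact cl_map φ.toMonoidHom (cl_of_isConj (hiconj x))
  have hi0a : ∀ φ : MulAut F2, cl ((φ * i0) ga) = cl (φ ga) := by
    intro φ
    rw [← hi0cl]
    have : iot ga = ga⁻¹ := by simp [iot]
    rw [this, map_inv, cl_inv]
  -- the two curves over a simple curve
  let wd : Bool → F2 := fun δ => if δ then iot w else w
  have hfw : wd false = w := rfl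
  have htw : wd true = iot w := rfl
  -- general injectivity
  have hinj : ∀ (φ ψ : MulAut F2), φ ∈ MCG → ψ ∈ MCG → ∀ δ δ', cl (φ (wd δ)) = cl (ψ (wd δ')) →
      cl (φ ga) = cl (ψ ga) := by
    have hbase : ∀ (φ ψ : MulAut F2), φ ∈ MCG → ψ ∈ MCG → ∀ δ', cl (φ w) = cl (ψ (wd δ')) →
        cl (φ ga) = cl (ψ ga) := by
      intro φ ψ hφ hψ δ' heq
      have h3 := cl_map (ψ⁻¹ : MulAut F2).toMonoidHom heq
      have h4 : cl ((ψ⁻¹ * φ) w) = cl (wd δ') := by
        rw [MulAut.mul_apply]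
        refine Eq.trans h3 ?_
        change cl ((ψ⁻¹ : MulAut F2) (ψ (wd δ'))) = _
        rw [← MulAut.mul_apply, inv_mul_cancel, MulAut.one_apply]
      have h5 : cl ((ψ⁻¹ * φ) ga) = cl ga := by
        apply claimB ρ hfin hw hn hcmp (MCG.mul_mem (MCG.inv_mem hψ) hφ)
        cases δ'
        · left; exact h4
        · right; exact h4
      have h6 := cl_map ψ.toMonoidHom h5
      have h7 : cl (ψ ((ψ⁻¹ * φ) ga)) = cl (ψ ga) := h6
      rwa [← MulAut.mul_apply, mul_inv_cancel_left] at h7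
    intro φ ψ hφ hψ δ δ' heq
    cases δ
    · exact hbase φ ψ hφ hψ δ' heq
    · rw [htw, hi0cl] at heq
      have := hbase (φ * i0) ψ (MCG.mul_mem hφ hi0) hψ δ' heq
      rwa [hi0a] at this
  -- choice of mapping classes
  choose Φ hΦ hΦa using fun x : orb ga => x.2
  have hmemw : ∀ (x : orb ga) (δ : Bool), cl (Φ x (wd δ)) ∈ orb w := by
    intro x δ
    cases δ
    · exact ⟨Φ x, hΦ x, rfl⟩
    · exact ⟨Φ x * i0, MCG.mul_mem (hΦ x) hi0, hi0cl _ _⟩
  have hlen : ∀ (x : orb ga) (δ : Bool), |cLen ρ (cl (Φ x (wd δ))) - n * cLen ρ x| ≤ C := by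
    intro x δ
    have h3 := hcmp (Φ x) (hΦ x)
    rw [← hΦa x] at h3
    rw [cLen_cl]
    cases δ
    · exact h3
    · rw [htw, gLen_iot]; exact h3
  have hsurj : ∀ y : orb w, ∃ (x : orb ga) (δ : Bool), (y : Curve) = cl (Φ x (wd δ)) := by
    rintro ⟨y, φ, hφ, rfl⟩
    refine ⟨⟨cl (φ ga), φ, hφ, rfl⟩, ?_⟩
    set x : orb ga := ⟨cl (φ ga), φ, hφ, rfl⟩ with hx
    have h3 : cl (φ ga) = cl (Φ x ga) := by rw [← hΦa x]
    have h4 := same_a hφ (hΦ x) h3 hw
    have h5 : cl (φ w) ∈ ({cl (Φ x w), cl (Φ x (iot w))} : Set Curve) := by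
      rw [← h4]; simp
    rcases h5 with h5 | h5
    · exact ⟨false, h5⟩
    · exact ⟨true, h5⟩
  by_cases hcase : cl w = cl (iot w)
  · -- one curve in each complement
    have hEq : ∀ (x : orb ga), cl (Φ x (wd true)) = cl (Φ x (wd false)) := fun x =>
      (cl_map (Φ x).toMonoidHom hcase).symm
    let F : orb ga × Unit → orb w := fun z => ⟨cl (Φ z.1 (wd false)), hmemw z.1 false⟩
    have hF : Function.Bijective F := by
      constructor
      · rintro ⟨x, _⟩ ⟨x', _⟩ heq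
        have h3 : cl (Φ x (wd false)) = cl (Φ x' (wd false)) := congrArg Subtype.val heq
        have h4 := hinj _ _ (hΦ x) (hΦ x') _ _ h3
        rw [← hΦa x, ← hΦa x'] at h4
        have : x = x' := Subtype.ext h4
        rw [this]
      · intro y
        obtain ⟨x, δ, hy⟩ := hsurj y
        refine ⟨(x, ()), Subtype.ext ?_⟩
        cases δ
        · exact hy.symm
        · rw [hEq] at hy; exact hy.symm
    exact perturb (Equiv.ofBijective F hF) (fun x : orb ga => cLen ρ x) (fun y : orb w => cLen ρ y)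
      n C hn hC (fun x d => hlen x false) hfin hpos b K hb hK hcount
  · let F : orb ga × Bool → orb w := fun z => ⟨cl (Φ z.1 (wd z.2)), hmemw z.1 z.2⟩
    have hne : ∀ x, cl (Φ x (wd false)) ≠ cl (Φ x (wd true)) := by
      intro x heq
      apply hcase
      have h3 := cl_map ((Φ x)⁻¹ : MulAut F2).toMonoidHom heq
      have h4 : cl (((Φ x)⁻¹ : MulAut F2) (Φ x (wd false))) = cl (((Φ x)⁻¹ : MulAut F2) (Φ x (wd true))) := h3
      rwa [← MulAut.mul_apply, ← MulAut.mul_apply, inv_mul_cancel, MulAut.one_apply,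
        MulAut.one_apply] at h4
    have hF : Function.Bijective F := by
      constructor
      · rintro ⟨x, δ⟩ ⟨x', δ'⟩ heq
        have h3 : cl (Φ x (wd δ)) = cl (Φ x' (wd δ')) := congrArg Subtype.val heq
        have h4 := hinj _ _ (hΦ x) (hΦ x') _ _ h3
        rw [← hΦa x, ← hΦa x'] at h4
        have hxx : x = x' := Subtype.ext h4
        subst hxx
        cases δ <;> cases δ'
        · rfl
        · exact absurd h3 (hne x)
        · exact absurd h3.symm (hne x)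
        · rfl
      · intro y
        obtain ⟨x, δ, hy⟩ := hsurj y
        exact ⟨(x, δ), Subtype.ext hy.symm⟩
    exact perturb (Equiv.ofBijective F hF) (fun x : orb ga => cLen ρ x) (fun y : orb w => cLen ρ y)
      n C hn hC (fun x d => hlen x d) hfin hpos b K hb hK hcount



lemma orb_map {g : F2} {φ : MulAut F2} (hφ : φ ∈ MCG) : orb (φ g) = orb g := by
  ext c
  constructor
  · rintro ⟨ψ, hψ, rfl⟩
    exact ⟨ψ * φ, MCG.mul_mem hψ hφ, by rw [MulAut.mul_apply]⟩
  · rintro ⟨ψ, hψ, rfl⟩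
    refine ⟨ψ * φ⁻¹, MCG.mul_mem hψ (MCG.inv_mem hφ), ?_⟩
    rw [← MulAut.mul_apply, inv_mul_cancel_right]

lemma orb_conj {g h : F2} (hgh : IsConj g h) : orb g = orb h := by
  have key : ∀ φ : MulAut F2, cl (φ g) = cl (φ h) := fun φ =>
    cl_map φ.toMonoidHom (cl_of_isConj hgh)
  ext c
  constructor
  · rintro ⟨ψ, hψ, rfl⟩
    exact ⟨ψ, hψ, key ψ⟩
  · rintro ⟨ψ, hψ, rfl⟩
    exact ⟨ψ, hψ, (key ψ).symm⟩

/-- The square-root law for every hyperbolic metric and every curve that does not fill. -/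
theorem nonfilling_law (hT : TOT_stmt) : ∀ t : ℝ × ℝ × ℝ, t ∈ Fricke →
    ∀ ρ : F2 →* SpecialLinearGroup (Fin 2) ℝ,
      tr (ρ ga) = t.1 → tr (ρ gb) = t.2.1 → tr (ρ (ga * gb)) = t.2.2 →
      ∀ g : F2, NonFilling g → ¬ Peripheral g → SqrtLaw ρ g := by
  intro t ht ρ ha hb hab g hg hper
  have htri : trTri ρ (ga, gb) = t := by
    unfold trTri
    simp only
    rw [ha, hb, hab]
  have hA : Adm (trTri ρ (ga, gb)) := by
    rw [htri]
    refine ⟨ht.1, ht.2.1, ?_⟩
    unfold kap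
    linarith [ht.2.2.2]
  obtain ⟨φ, hφ, w, hw, hconj⟩ := hg
  have horb : orb g = orb w := by rw [← orb_map hφ, orb_conj hconj]
  have hperw : ¬ ∃ m : ℤ, IsConj w (kom ^ m) := by
    rintro ⟨m, hm⟩
    apply hper
    refine ⟨m, ?_⟩
    have e1 : IsConj (φ g) (kom ^ m) := hconj.trans hm
    have e2 : IsConj (φ⁻¹ (φ g)) (φ⁻¹ (kom ^ m)) := (φ⁻¹ : MulAut F2).toMonoidHom.map_isConj e1
    rw [← MulAut.mul_apply, inv_mul_cancel, MulAut.one_apply] at e2
    refine e2.trans ?_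
    have e3 : IsConj (φ⁻¹ kom) kom := kom_MCG φ⁻¹ (MCG.inv_mem hφ)
    rw [map_zpow]
    obtain ⟨c, hc⟩ := isConj_iff.1 e3
    rw [isConj_iff]
    refine ⟨c, ?_⟩
    calc c * (φ⁻¹ kom) ^ m * c⁻¹ = (c * φ⁻¹ kom * c⁻¹) ^ m := conj_zpow.symm
      _ = kom ^ m := by rw [hc]
  obtain ⟨he, u, C, hu, hlaw⟩ := pants_law hT ρ hA hw hperw
  unfold SqrtLaw
  rw [horb]
  refine ⟨he, u, 0, C, hu, fun e hmono k => ?_⟩
  rw [add_zero]
  exact hlaw e hmono k



end AM
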