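import Mathlib
import Pool.Agent.helper68.AM.Spec
import Pool.Agent.helper68.AM.Tree

/-!
Project sl: (AM): RS, the total weight of the resonant leaves.
-/

set_option autoImplicit false

namespace AM

open Pool.Agent.helper72.Sq Finset

lemma RS_sum (n : ℕ) : ∑ q ∈ range n, ((q : ℝ) + 1) ^ 2 / 2 ^ q =
    12 - (2 * (n : ℝ) ^ 2 + 8 * n + 12) / 2 ^ n := by
  induction n with
  | zero => simp
  | succ n ih =>
    rw [sum_range_succ, ih]
    push_cast
    have h : (2 : ℝ) ^ n ≠ 0 := by positivity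
    rw [pow_succ]
    field_simp
    ring

theorem RS (hRSD : RSD_stmt) (hRSP : RSP_stmt) : RS_stmt := by
  intro P hP κ hκ
  obtain ⟨C, hC, j1, h1⟩ := hRSD P hP κ hκ
  obtain ⟨c5, hc5, j2, h2⟩ := hRSP P hP κ hκ
  have hpar := Par_of_Gr hP
  set c := min (ltau P.1) (ltau P.2.1) with hc
  have hc0 : 0 < c := hpar.c0
  obtain ⟨j3, hj3⟩ := exists_nat_ge (1 / c5)
  refine ⟨12 * C / (c * c5), by positivity, max (max j1 j2) (max j3 1), ?_⟩
  intro j M hj hjM a s
  have hj1 : j1 ≤ j := le_trans (le_trans (le_max_left _ _) (le_max_left _ _)) hj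
  have hj2 : j2 ≤ j := le_trans (le_trans (le_max_right _ _) (le_max_left _ _)) hj
  have hj3' : j3 ≤ j := le_trans (le_trans (le_max_left _ _) (le_max_right _ _)) hj
  have hj4 : 1 ≤ j := le_trans (le_trans (le_max_right _ _) (le_max_right _ _)) hj
  have hjR : (1 : ℝ) ≤ j := by exact_mod_cast hj4
  classical
  set Q := Nat.log 2 (j ^ 6) with hQ
  let g : ℕ → Nd → ℝ := fun q y =>
    if Bad κ j y (a y) (s y) ∧ -(2 ^ (q + 1)) < dx y (a y) (s y) ∧ dy y (a y) (s y) < 2 ^ (q + 1)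
      then 1 / ((y.m1 : ℝ) * y.m2) else 0
  have hg0 : ∀ q y, 0 ≤ g q y := by
    intro q y
    simp only [g]
    split_ifs
    · positivity
    · exact le_rfl
  -- pointwise bound
  have hpt : ∀ y ∈ lvs M M (rt P),
      (if Bad κ j y (a y) (s y) then 1 / (y.l2 * (s y : ℝ)) else 0) ≤
      ∑ q ∈ range (Q + 1), (1 / (c * c5) * (1 / 2 ^ q)) * g q y := by
    intro y hy
    split_ifs with hb
    · obtain ⟨hx, hyy, _, _, hs1, hs2⟩ := h2 j M hj2 y hy (a y) (s y) hb
      have hG := GN_lvs M M (rt P) (GN_rt hP) y hy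
      have hm1 : (1 : ℝ) ≤ y.m1 := by exact_mod_cast hG.m1_pos
      have hm2 : (1 : ℝ) ≤ y.m2 := by exact_mod_cast hG.m2_pos
      have hl2 : c * y.m2 ≤ y.l2 := hG.l2_ge
      obtain ⟨δ, hδ⟩ : ∃ δ : ℕ, (δ : ℤ) = max (-(dx y (a y) (s y))) (dy y (a y) (s y)) :=
        ⟨(max (-(dx y (a y) (s y))) (dy y (a y) (s y))).toNat,
          Int.toNat_of_nonneg (le_trans hyy.le (le_max_right _ _))⟩
      have hδ1 : -(dx y (a y) (s y)) ≤ δ := by rw [hδ]; exact le_max_left _ _
      have hδ2 : dy y (a y) (s y) ≤ δ := by rw [hδ]; exact le_max_right _ _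
      have hδpos : 1 ≤ δ := by
        have : (1 : ℤ) ≤ δ := by linarith
        exact_mod_cast this
      have hδs : c5 * (δ : ℝ) * y.m1 ≤ s y := by
        rcases max_choice (-(dx y (a y) (s y))) (dy y (a y) (s y)) with h | h
        · rw [h] at hδ
          have : (δ : ℝ) = -(dx y (a y) (s y) : ℝ) := by exact_mod_cast hδ
          rw [this]; exact hs1
        · rw [h] at hδ
          have : (δ : ℝ) = (dy y (a y) (s y) : ℝ) := by exact_mod_cast hδ
          rw [this]; exact hs2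
      have hδR : (1 : ℝ) ≤ δ := by exact_mod_cast hδpos
      obtain ⟨_, hs0, hs4, _, _⟩ := hb
      have hs4R : (s y : ℝ) ≤ (j : ℝ) ^ 4 := by exact_mod_cast hs4
      have hs0R : (1 : ℝ) ≤ s y := by exact_mod_cast hs0
      have hδj : (δ : ℝ) ≤ (j : ℝ) ^ 6 := by
        have e1 : c5 * (δ : ℝ) ≤ (j : ℝ) ^ 4 := by
          calc c5 * (δ : ℝ) ≤ c5 * (δ : ℝ) * y.m1 := le_mul_of_one_le_right (by positivity) hm1
            _ ≤ s y := hδs
            _ ≤ _ := hs4R
        have e2 : 1 / c5 ≤ (j : ℝ) := hj3.trans (by exact_mod_cast hj3')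
        have e3 : 1 ≤ c5 * j := by
          rw [div_le_iff₀ hc5] at e2; linarith
        have e4 : (δ : ℝ) ≤ (c5 * j) * δ := le_mul_of_one_le_left (by positivity) e3
        calc (δ : ℝ) ≤ (c5 * j) * δ := e4
          _ = j * (c5 * δ) := by ring
          _ ≤ j * (j : ℝ) ^ 4 := by gcongr
          _ = (j : ℝ) ^ 5 := by ring
          _ ≤ (j : ℝ) ^ 6 := pow_le_pow_right₀ hjR (by norm_num)
      have hδj' : δ ≤ j ^ 6 := by exact_mod_cast hδj
      set q := Nat.log 2 δ with hq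
      have hq1 : 2 ^ q ≤ δ := Nat.pow_log_le_self 2 (by omega)
      have hq2 : δ < 2 ^ (q + 1) := Nat.lt_pow_succ_log_self (by norm_num) δ
      have hqQ : q ∈ range (Q + 1) := by
        rw [mem_range, Nat.lt_succ_iff, hq, hQ]
        exact Nat.log_mono_right hδj'
      have hq2Z : (δ : ℤ) < 2 ^ (q + 1) := by exact_mod_cast hq2
      have hbb : Bad κ j y (a y) (s y) := ⟨by assumption, hs0, hs4, by assumption, by assumption⟩
      have hgq : g q y = 1 / ((y.m1 : ℝ) * y.m2) := by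
        simp only [g]
        rw [if_pos]
        exact ⟨hbb, by linarith, by linarith⟩
      have hterm : 1 / (y.l2 * (s y : ℝ)) ≤ (1 / (c * c5) * (1 / 2 ^ q)) * g q y := by
        rw [hgq]
        have e1 : (c * y.m2) * (c5 * (δ : ℝ) * y.m1) ≤ y.l2 * s y :=
          mul_le_mul hl2 hδs (by positivity) (le_trans (by positivity) hl2)
        have e2 : (2 : ℝ) ^ q ≤ δ := by exact_mod_cast hq1
        have e3 : (c * y.m2) * (c5 * (2 : ℝ) ^ q * y.m1) ≤ y.l2 * s y := by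
          refine le_trans ?_ e1
          gcongr
        have e4 : (1 / (c * c5) * (1 / 2 ^ q)) * (1 / ((y.m1 : ℝ) * y.m2)) =
            1 / ((c * y.m2) * (c5 * (2 : ℝ) ^ q * y.m1)) := by
          field_simp
        rw [e4]
        exact one_div_le_one_div_of_le (by positivity) e3
      refine hterm.trans ?_
      exact Finset.single_le_sum (f := fun q => (1 / (c * c5) * (1 / 2 ^ q)) * g q y)
        (fun i _ => mul_nonneg (by positivity) (hg0 i y)) hqQ
    · exact Finset.sum_nonneg (fun i _ => mul_nonneg (by positivity) (hg0 i y))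
  refine (lsum_le _ _ _ _ _ hpt).trans ?_
  rw [lsum_sum]
  have hq : ∀ q ∈ range (Q + 1), lsum M M (rt P) (fun y => (1 / (c * c5) * (1 / 2 ^ q)) * g q y) ≤
      (C / (c * c5) / j) * (((q : ℝ) + 1) ^ 2 / 2 ^ q) := by
    intro q hq
    rw [lsum_mul]
    have hqj : 2 ^ q ≤ j ^ 6 := by
      rw [mem_range, Nat.lt_succ_iff, hQ] at hq
      calc 2 ^ q ≤ 2 ^ (Nat.log 2 (j ^ 6)) := Nat.pow_le_pow_right (by norm_num) hq
        _ ≤ j ^ 6 := Nat.pow_log_le_self 2 (by positivity)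
    have := h1 j M q hj1 hjM hqj a s
    have h3 : lsum M M (rt P) (g q) ≤ C * ((q : ℝ) + 1) ^ 2 / j := by
      refine le_trans (le_of_eq ?_) this
      apply lsum_congr
      intro y _
      simp only [g]
    calc (1 / (c * c5) * (1 / 2 ^ q)) * lsum M M (rt P) (g q) ≤
        (1 / (c * c5) * (1 / 2 ^ q)) * (C * ((q : ℝ) + 1) ^ 2 / j) := by gcongr
      _ = _ := by field_simp
  refine (Finset.sum_le_sum hq).trans ?_
  rw [← Finset.mul_sum, RS_sum]
  have h5 : 12 - (2 * (((Q + 1 : ℕ)) : ℝ) ^ 2 + 8 * ((Q + 1 : ℕ) : ℝ) + 12) / 2 ^ (Q + 1) ≤ 12 := by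
    have : 0 ≤ (2 * (((Q + 1 : ℕ)) : ℝ) ^ 2 + 8 * ((Q + 1 : ℕ) : ℝ) + 12) / 2 ^ (Q + 1) := by
      positivity
    linarith
  calc (C / (c * c5) / j) * (12 - (2 * (((Q + 1 : ℕ)) : ℝ) ^ 2 + 8 * ((Q + 1 : ℕ) : ℝ) + 12) / 2 ^ (Q + 1))
      ≤ (C / (c * c5) / j) * 12 := by gcongr
    _ = 12 * C / (c * c5) / j := by ring

end AM
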