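import Mathlib
import Pool.Agent.helper68.AM.Spec
import Pool.Agent.helper68.AM.Law
import Pool.Agent.helper68.AM.RS
import Pool.Agent.helper1.AM.NI
import Pool.Agent.helper1.AM.SV
import Pool.Agent.helper14.AM.LM
import Pool.Agent.helper15.AM.MN
import Pool.Agent.helper16.AM.FIN
import Pool.Agent.helper16.AM.FS
import Pool.Agent.helper18.AM.MP
import Pool.Agent.helper23.AM.GP
import Pool.Agent.helper25.AM.EM
import Pool.Agent.helper25.AM.GE
import Pool.Agent.helper25.AM.SSB
import Pool.Agent.helper31.AM.AL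
import Pool.Agent.helper38.AM.BL
import Pool.Agent.helper4.AM.RSA
import Pool.Agent.helper55.AM.RSC
import Pool.Agent.helper55.AM.TB
import Pool.Agent.helper6.AM.RAM
import Pool.Agent.helper6.AM.SB
import Pool.Agent.helper61.AM.BB
import Pool.Agent.helper63.AM.KL
import Pool.Agent.helper63.AM.RF
import Pool.Agent.helper73.AM.S2
import Pool.Agent.helper74.AM.HR
import Pool.Agent.helper78.AM.GF
import Pool.Agent.helper79.AM.MU
import Pool.Agent.helper79.AM.RSD
import Pool.Agent.helper92.AM.TOT
import Pool.Agent.helper97.AM.SW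
import Pool.Agent.helper99.AM.MBA
import Pool.Agent.helper99.AM.RSP

/-!
Project sl: (AM), MP_d52931_gt: the count of the simple curves for every metric.
-/

set_option autoImplicit false

namespace AM

theorem tot_of (hNI : NI_stmt) (hRS : RSD_stmt → RSP_stmt → RS_stmt) : TOT_stmt := by
  have hKL : KL_stmt := KL
  have hEM : EM_stmt := EM hKL
  have hBL : BL_stmt := BL hEM
  have hSV : SV_stmt := SV HR RF
  have hMU : MU_stmt := MU hBL RAM hSV
  have hMP : MP_stmt := MP hMU FS hNI
  have hMN : MN_stmt := MN GE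
  have hRSA : RSA_stmt := RSA GE hMN
  have hRSC : RSC_stmt := RSC GF hMN
  have hRSP : RSP_stmt := RSP hMN GE
  have hRSD : RSD_stmt := RSD hRSA hRSC hRSP
  have hRS' : RS_stmt := hRS hRSD hRSP
  have hS2 : S2_stmt := S2 SB hMP hNI
  have hSSB : SSB_stmt := SSB hRS'
  have hTB : TB_stmt := TB LM hSSB
  have hBB : BB_stmt := BB LM hS2 hRS' GP
  exact TOT (MBA (FIN SW AL hTB hBB))

/-- the count of the simple curves, every metric -/
theorem tot : TOT_stmt := tot_of NI RS

end AM
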