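import Mathlib
import Pool.Agent.helper68.AM.SpecX

/-!
Project sl: part Y (MP_d52931_gt): the curve `a⁶ b²`.
-/

set_option autoImplicit false

namespace AM

open Pool.Agent.helper72.Sq Matrix

/-- XA5: weight `g max (2 lx, ly)`. Write `z w = len (desc w P).2.2`. Up to constants (XB): for even
quarter turns the weight `max (2 l1, l2)` of the node `w ++ [true, true]` is `z (w ++ [true])`
(`z (w ++ [true]) ≈ 2 l1 + l2`), that of `w ++ [false, true]` is `2 z w`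
(`2 z w ≥ z w + l2 ≈ z (w ++ [false])`), that of `w ++ [false]` is `2 z w`. For odd quarter turns the weight
is `max (2 l2, l1)`: `w ++ [false, false]` gives `z (w ++ [false])`, `w ++ [true, false]` and `w ++ [true]`
give `2 z w`. Together: `2 #{w ≠ [] : z w ≤ R} + 8 #{w : 2 z w ≤ R}` for each cone; split the indices into
the two kinds. XZ, TOT as in helper31/AM/XA.lean (XA3_fib, XA3_base, XA3_GW). -/
def XA5_stmt : Prop := ∀ ρ : F2 →* SpecialLinearGroup (Fin 2) ℝ, Adm (trTri ρ (ga, gb)) →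
  ∀ g : ℝ, 0 < g → GW (fun i => g * max (2 * lx ρ i) (ly ρ i))

/-- XW5: the curve `a⁶ b²`: with `V = A³ B` one has `A⁶ B² = A³ V A⁻³ V` and
`tr (A³ V A⁻³ V) = (tr V)² - tr (A³ V A⁻³ V⁻¹) = (tr V)² - 2 + ((tr A)² - 1)² (2 - τ)`, `τ = tr [A, B]`
(compare XW3 in helper52/AM/XW3.lean; `x² - 1 ≥ 3 x² / 4`). -/
def XW5_stmt : Prop := ∀ ρ : F2 →* SpecialLinearGroup (Fin 2) ℝ, Adm (trTri ρ (ga, gb)) →
  ∃ C : ℝ, ∀ φ : MulAut F2, φ ∈ MCG →
    |gLen ρ (φ (ga ^ 6 * gb ^ 2)) - 2 * max (2 * gLen ρ (φ ga)) (gLen ρ (φ (ga ^ 3 * gb)))| ≤ C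

end AM
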