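import Mathlib
import Pool.Agent.helper68.AM.SpecX
import Pool.Agent.helper68.AM.SpecY
import Pool.Agent.helper68.AM.Final
import Pool.Agent.helper1.AM.XC
import Pool.Agent.helper11.AM.XF
import Pool.Agent.helper15.AM.XB
import Pool.Agent.helper17.AM.XA1
import Pool.Agent.helper25.AM.XG
import Pool.Agent.helper31.AM.XA
import Pool.Agent.helper32.AM.XL
import Pool.Agent.helper43.AM.XI
import Pool.Agent.helper46.AM.XW2
import Pool.Agent.helper52.AM.XW3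
import Pool.Agent.helper54.AM.XZ
import Pool.Agent.helper55.AM.XQ
import Pool.Agent.helper6.AM.XR
import Pool.Agent.helper6.AM.XT
import Pool.Agent.helper71.AM.XU
import Pool.Agent.helper77.AM.XP
import Pool.Agent.helper78.AM.XE
import Pool.Agent.helper78.AM.XW
import Pool.Agent.helper89.AM.XM
import Pool.Agent.helper91.AM.XA2
import Pool.Agent.helper93.AM.XN

/-!
Project sl: (AM), MP_d52931_gt: the square-root law for families of filling curves, every metric.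
-/

set_option autoImplicit false

namespace AM

open Pool.Agent.helper72.Sq Matrix

lemma FX_XA1 : XA1_stmt := XA1 XZ XB XI tot XP
lemma FX_XA2 : XA2_stmt := XA2 XB XI XZ XP tot
lemma FX_XA3 : XA3_stmt := XA3 XZ XB XI tot XP
lemma FX_XA4 : XA4_stmt := XA4 XZ XB XI tot XP
lemma FX_XF : XF_stmt := XF XN XM XU
lemma FX_XL : XL_stmt := XL XM FX_XF XP
lemma FX_XW : XW_stmt := XW XE XC (XT XC XQ)
lemma FX_XW2 : XW2_stmt := XW2 XE
lemma FX_XW3 : XW3_stmt := XW3 XE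

/-- XG with a general control function (proof of helper25) -/
lemma FX_G (ρ : F2 →* SpecialLinearGroup (Fin 2) ℝ) (γ : F2) (F : ℝ → ℝ)
    (hfin : ∀ R, {x : orb ga | cLen ρ x ≤ R}.Finite)
    (hC : ∀ φ : MulAut F2, φ ∈ MCG → max (gLen ρ (φ ga)) (gLen ρ (φ gb)) ≤ F (gLen ρ (φ γ))) :
    ¬ NonFilling γ := by
  intro hNF
  obtain ⟨φ, hφ, w, hw, hconj⟩ := hNF
  have hA : twA ∈ MCG := Subgroup.subset_closure (by simp)
  have hk : ∀ k : ℕ, ((twA : MulAut F2) ^ k * φ) ∈ MCG := fun k =>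
    MCG.mul_mem (MCG.pow_mem hA k) hφ
  have hG : ∀ k : ℕ, gLen ρ (((twA : MulAut F2) ^ k * φ) γ) = gLen ρ w := by
    intro k
    rw [MulAut.mul_apply]
    have h1 : cl (((twA : MulAut F2) ^ k) w) = cl w := twA_pow_pants hw k
    have h3 : cl (((twA : MulAut F2) ^ k) (φ γ)) = cl (((twA : MulAut F2) ^ k) w) :=
      cl_map ((twA : MulAut F2) ^ k).toMonoidHom (cl_of_isConj hconj)
    rw [← cLen_cl, ← cLen_cl, h3, h1]
  set D := F (gLen ρ w) with hD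
  have hmax : ∀ k : ℕ, gLen ρ (((twA : MulAut F2) ^ k * φ) ga) ≤ D ∧
      gLen ρ (((twA : MulAut F2) ^ k * φ) gb) ≤ D := by
    intro k
    have h := hC _ (hk k)
    rw [hG k] at h
    exact ⟨(le_max_left _ _).trans h, (le_max_right _ _).trans h⟩
  obtain ⟨φ0, hφ0, hφ0a⟩ := XG_b
  have h1 : (ab (φ ga)).toAdd.2 = 0 := by
    apply XG_aux ρ hfin D hφ
    intro k
    rw [cLen_cl]
    exact (hmax k).1
  have h2 : (ab (φ gb)).toAdd.2 = 0 := by
    have := XG_aux ρ hfin D (χ := φ * φ0) (MCG.mul_mem hφ hφ0) (by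
      intro k
      rw [cLen_cl, ← mul_assoc, MulAut.mul_apply, hφ0a]
      exact (hmax k).2)
    rwa [MulAut.mul_apply, hφ0a] at this
  let s : F2 →* Multiplicative ℤ :=
    ((AddMonoidHom.toMultiplicative (AddMonoidHom.snd ℤ ℤ)).comp ab).comp φ.toMonoidHom
  have hs : s = 1 := by
    apply F2_hom_ext
    · exact h1
    · exact h2
  have h3 := DFunLike.congr_fun hs (φ.symm gb)
  have h4 : s (φ.symm gb) = (AddMonoidHom.toMultiplicative (AddMonoidHom.snd ℤ ℤ)) (ab gb) := by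
    show (AddMonoidHom.toMultiplicative (AddMonoidHom.snd ℤ ℤ)) (ab (φ (φ.symm gb))) = _
    rw [MulEquiv.apply_symm_apply]
  rw [h4] at h3
  have h5 : (ab gb).toAdd.2 = 0 := h3
  simp [ab] at h5

/-- a curve whose lengths are comparable to a weight of quadratic growth which controls both lengths
fills and satisfies the law -/
lemma FX_fam (ρ : F2 →* SpecialLinearGroup (Fin 2) ℝ) (hA : Adm (trTri ρ (ga, gb))) (γ : F2)
    (q : ℝ → ℝ → ℝ) (hGW : GW (fun i => q (lx ρ i) (ly ρ i))) (hLT : LT ρ γ q) (c : ℝ) (hc : 0 ≤ c)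
    (hq : ∀ l l' : ℝ, 0 ≤ l → 0 ≤ l' → max l l' ≤ c * q l l') :
    ¬ NonFilling γ ∧ SqrtLaw ρ γ := by
  refine ⟨?_, FX_XL ρ γ q hA hGW hLT⟩
  obtain ⟨C, hC⟩ := hLT
  apply FX_G ρ γ (fun t => c * (t + C)) (count_simple tot ρ hA).1
  intro φ hφ
  obtain ⟨h1, h2, -, -, -⟩ := XE ρ hA φ hφ
  have e1 : 0 ≤ gLen ρ (φ ga) := by
    have : gLen ρ (φ ga) = len (tr (ρ (φ ga))) := by unfold gLen len; rw [abs_of_pos (by linarith)]
    rw [this]; exact (len_pos h1).le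
  have e2 : 0 ≤ gLen ρ (φ gb) := by
    have : gLen ρ (φ gb) = len (tr (ρ (φ gb))) := by unfold gLen len; rw [abs_of_pos (by linarith)]
    rw [this]; exact (len_pos h2).le
  have h3 := hq _ _ e1 e2
  have h4 := (abs_le.1 (hC φ hφ)).1
  exact h3.trans (mul_le_mul_of_nonneg_left (by linarith) hc)

/-- the same after a change of basis -/
lemma FX_fam' (ρ : F2 →* SpecialLinearGroup (Fin 2) ℝ) (hA : Adm (trTri ρ (ga, gb))) (γ : F2)
    (q : ℝ → ℝ → ℝ) (hGW : GW (fun i => q (lx ρ i) (ly ρ i))) (θ : MulAut F2) (hθ : θ ∈ MCG)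
    (hLT : ∃ C : ℝ, ∀ φ : MulAut F2, φ ∈ MCG →
      |gLen ρ (φ γ) - q (gLen ρ (φ (θ ga))) (gLen ρ (φ (θ gb)))| ≤ C) (c : ℝ) (hc : 0 ≤ c)
    (hq : ∀ l l' : ℝ, 0 ≤ l → 0 ≤ l' → max l l' ≤ c * q l l') :
    ¬ NonFilling γ ∧ SqrtLaw ρ γ := by
  obtain ⟨h1, h2⟩ := XR ρ γ q θ hθ hLT
  obtain ⟨h3, h4⟩ := FX_fam ρ hA (θ⁻¹ γ) q hGW h1 c hc hq
  refine ⟨fun hNF => h3 ?_, h2 h4⟩
  obtain ⟨φ, hφ, w, hw, hconj⟩ := hNF
  refine ⟨φ * θ, MCG.mul_mem hφ hθ, w, hw, ?_⟩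
  rwa [← MulAut.mul_apply, mul_inv_cancel_right]

lemma FX_adm (ρ : F2 →* SpecialLinearGroup (Fin 2) ℝ) (t : ℝ × ℝ × ℝ) (ht : t ∈ Fricke)
    (ha : tr (ρ ga) = t.1) (hb : tr (ρ gb) = t.2.1) (hab : tr (ρ (ga * gb)) = t.2.2) :
    Adm (trTri ρ (ga, gb)) := by
  have htri : trTri ρ (ga, gb) = t := by
    unfold trTri
    simp only
    rw [ha, hb, hab]
  rw [htri]
  refine ⟨ht.1, ht.2.1, ?_⟩
  unfold kap
  linarith [ht.2.2.2]

/-- four-syllable words -/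
theorem w4_law (ρ : F2 →* SpecialLinearGroup (Fin 2) ℝ) (hA : Adm (trTri ρ (ga, gb)))
    (n1 m1 n2 m2 : ℕ) (hn1 : 1 ≤ n1) (hm1 : 1 ≤ m1) (hn2 : 1 ≤ n2) (hm2 : 1 ≤ m2) (p q : ℕ)
    (hp : n1 + n2 = p + 2) (hq : m1 + m2 = q + 2) (hp1 : 1 ≤ p) (hq1 : 1 ≤ q)
    (h : p = q ∨ p = 2 * q ∨ q = 2 * p) :
    ¬ NonFilling (w4 n1 m1 n2 m2) ∧ SqrtLaw ρ (w4 n1 m1 n2 m2) := by
  have hLT := FX_XW ρ hA n1 m1 n2 m2 hn1 hm1 hn2 hm2
  have ep : ((n1 + n2 : ℝ) - 2) = p := by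
    have : ((n1 + n2 : ℕ) : ℝ) = ((p + 2 : ℕ) : ℝ) := by rw [hp]
    push_cast at this; linarith
  have eq : ((m1 + m2 : ℝ) - 2) = q := by
    have : ((m1 + m2 : ℕ) : ℝ) = ((q + 2 : ℕ) : ℝ) := by rw [hq]
    push_cast at this; linarith
  rw [ep, eq] at hLT
  have hpR : (1 : ℝ) ≤ p := by exact_mod_cast hp1
  have hqR : (1 : ℝ) ≤ q := by exact_mod_cast hq1
  refine FX_fam ρ hA _ _ ?_ hLT 1 zero_le_one ?_
  · rcases h with h | h | h
    · have := FX_XA1 ρ hA (p : ℝ) (by linarith)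
      have e : (fun i => (p : ℝ) * (lx ρ i + ly ρ i)) = fun i => (p : ℝ) * lx ρ i + (q : ℝ) * ly ρ i := by
        funext i; rw [← h]; ring
      rwa [e] at this
    · have := FX_XA3 ρ hA (q : ℝ) (by linarith)
      have e : (fun i => (q : ℝ) * (2 * lx ρ i + ly ρ i)) = fun i => (p : ℝ) * lx ρ i + (q : ℝ) * ly ρ i := by
        funext i; rw [h]; push_cast; ring
      rwa [e] at this
    · have := FX_XA2 ρ hA (p : ℝ) (by linarith)
      have e : (fun i => (p : ℝ) * (lx ρ i + 2 * ly ρ i)) = fun i => (p : ℝ) * lx ρ i + (q : ℝ) * ly ρ i := by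
        funext i; rw [h]; push_cast; ring
      rwa [e] at this
  · intro l l' hl hl'
    rw [one_mul]
    apply max_le <;> nlinarith

/-- `a³ b²` -/
theorem a3b2_law (ρ : F2 →* SpecialLinearGroup (Fin 2) ℝ) (hA : Adm (trTri ρ (ga, gb))) :
    ¬ NonFilling (ga ^ 3 * gb ^ 2) ∧ SqrtLaw ρ (ga ^ 3 * gb ^ 2) := by
  have hA1 : twA ∈ MCG := Subgroup.subset_closure (by simp)
  have hB1 : twB ∈ MCG := Subgroup.subset_closure (by simp)
  have ea : (twA * twB : MulAut F2) ga = ga ^ 2 * gb := by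
    rw [MulAut.mul_apply, twB_a, map_mul twA, twA_a, twA_b, pow_two, mul_assoc]
  have eb : (twA * twB : MulAut F2) gb = ga * gb := by
    rw [MulAut.mul_apply, twB_b, twA_b]
  have hGW := FX_XA1 ρ hA 1 one_pos
  refine FX_fam' ρ hA _ (fun l l' => 1 * (l + l')) hGW (twA * twB) (MCG.mul_mem hA1 hB1) ?_ 1
    zero_le_one ?_
  · obtain ⟨C, hC⟩ := FX_XW2 ρ hA
    refine ⟨C, fun φ hφ => ?_⟩
    rw [ea, eb, one_mul]
    exact hC φ hφ
  · intro l l' hl hl'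
    apply max_le <;> linarith

/-- `a⁴ b²` -/
theorem a4b2_law (ρ : F2 →* SpecialLinearGroup (Fin 2) ℝ) (hA : Adm (trTri ρ (ga, gb))) :
    ¬ NonFilling (ga ^ 4 * gb ^ 2) ∧ SqrtLaw ρ (ga ^ 4 * gb ^ 2) := by
  have hA1 : twA ∈ MCG := Subgroup.subset_closure (by simp)
  have ea : (twA * twA : MulAut F2) ga = ga := by
    rw [MulAut.mul_apply, twA_a, twA_a]
  have eb : (twA * twA : MulAut F2) gb = ga ^ 2 * gb := by
    rw [MulAut.mul_apply, twA_b, map_mul twA, twA_a, twA_b, pow_two, mul_assoc]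
  have hGW := FX_XA4 ρ hA 2 two_pos
  refine FX_fam' ρ hA _ (fun l l' => 2 * max l l') hGW (twA * twA) (MCG.mul_mem hA1 hA1) ?_ 1
    zero_le_one ?_
  · obtain ⟨C, hC⟩ := FX_XW3 ρ hA
    refine ⟨C, fun φ hφ => ?_⟩
    rw [ea, eb]
    exact hC φ hφ
  · intro l l' hl hl'
    rw [one_mul]
    have : 0 ≤ max l l' := le_max_of_le_left hl
    linarith

end AM
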