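import Mathlib
import Pool.Agent.helper68.AM.FinalX
import Pool.Agent.helper21.AM.XW5
import Pool.Agent.helper63.AM.XA5

/-!
Project sl: (AM), MP_d52931_gt: the curve `a⁶ b²`.
-/

set_option autoImplicit false

namespace AM

open Pool.Agent.helper72.Sq Matrix

/-- `a⁶ b²` -/
theorem a6b2_law (ρ : F2 →* SpecialLinearGroup (Fin 2) ℝ)
    (hA : Adm (trTri ρ (ga, gb))) :
    ¬ NonFilling (ga ^ 6 * gb ^ 2) ∧ SqrtLaw ρ (ga ^ 6 * gb ^ 2) := by
  have hA1 : twA ∈ MCG := Subgroup.subset_closure (by simp)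
  have ea : (twA * twA * twA : MulAut F2) ga = ga := by
    rw [MulAut.mul_apply, MulAut.mul_apply, twA_a, twA_a, twA_a]
  have eb : (twA * twA * twA : MulAut F2) gb = ga ^ 3 * gb := by
    rw [MulAut.mul_apply, MulAut.mul_apply, twA_b, map_mul twA, twA_a, twA_b, map_mul twA,
      map_mul twA, twA_a, twA_b, pow_succ, pow_two, mul_assoc, mul_assoc]
  have hGW := XA5 XZ XB XI tot XP ρ hA 2 two_pos
  refine FX_fam' ρ hA _ (fun l l' => 2 * max (2 * l) l') hGW (twA * twA * twA)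
    (MCG.mul_mem (MCG.mul_mem hA1 hA1) hA1) ?_ 1 zero_le_one ?_
  · obtain ⟨C, hC⟩ := XW5 XE ρ hA
    refine ⟨C, fun φ hφ => ?_⟩
    rw [ea, eb]
    exact hC φ hφ
  · intro l l' hl hl'
    rw [one_mul]
    have h1 : 2 * l ≤ max (2 * l) l' := le_max_left _ _
    have h2 : l' ≤ max (2 * l) l' := le_max_right _ _
    apply max_le <;> linarith

end AM
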